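import Pool.Agent.H26.LP.Stm

/-!
# Project LP, module EVJ: point evaluations and cyclic vectors
-/

set_option autoImplicit false

namespace Pool.Agent.H26.LP.EVJ

open MeasureTheory Set Metric Filter Topology

variable {E : Type} [NormedAddCommGroup E] [NormedSpace ℂ E]

/-- the map `p ↦ p(T) y` -/
noncomputable def L (T : E →L[ℂ] E) (y : E) : Polynomial ℂ →ₗ[ℂ] E where
  toFun p := Polynomial.aeval T p y
  map_add' p q := by rw [map_add]; rfl
  map_smul' a p := by rw [map_smul]; rfl

lemma L_apply (T : E →L[ℂ] E) (y : E) (p : Polynomial ℂ) :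
    L T y p = Polynomial.aeval T p y := rfl

lemma L_X (T : E →L[ℂ] E) (y : E) (p : Polynomial ℂ) :
    T (L T y p) = L T y (Polynomial.X * p) := by
  rw [L_apply, L_apply, map_mul, Polynomial.aeval_X]
  rfl

lemma L_one (T : E →L[ℂ] E) (y : E) : L T y 1 = y := by
  rw [L_apply, map_one]
  rfl

lemma inv_closure (T : E →L[ℂ] E) (W : Submodule ℂ E) (hW : ∀ x ∈ W, T x ∈ W) :
    ∀ x ∈ W.topologicalClosure, T x ∈ W.topologicalClosure := by
  intro x hx
  have h1 : x ∈ closure (W : Set E) := hx
  have h2 : T x ∈ closure (W : Set E) := map_mem_closure T.continuous h1 fun y hy => hW y hy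
  exact h2

theorem evj : S_EVJ := by
  intro E _ _ _ T hdim
  refine ⟨fun y a C hC => ?_, fun hNI y hy y' ε hε => ?_⟩
  · have h1 : 1 ≤ C * ‖y‖ := by
      have h := hC 1
      rw [Polynomial.eval_one, norm_one, map_one] at h
      exact h
    have hy : y ≠ 0 := by
      rintro rfl
      rw [norm_zero, mul_zero] at h1
      linarith
    have hy0 : 0 < ‖y‖ := norm_pos_iff.2 hy
    have hC0 : 0 < C := by
      by_contra h
      have := mul_nonpos_of_nonpos_of_nonneg (not_lt.1 h) hy0.le
      linarith
    obtain ⟨W, hW⟩ : ∃ W : Submodule ℂ E,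
        W = (LinearMap.ker (Polynomial.leval a)).map (L T y) := ⟨_, rfl⟩
    have hmem : ∀ q : Polynomial ℂ, q.eval a = 0 → L T y q ∈ W := by
      intro q hq
      rw [hW]
      refine Submodule.mem_map_of_mem ?_
      rw [LinearMap.mem_ker]
      exact hq
    have hex : ∀ w ∈ W, ∃ q : Polynomial ℂ, q.eval a = 0 ∧ L T y q = w := by
      intro w hw
      rw [hW] at hw
      obtain ⟨q, hq, hqw⟩ := hw
      exact ⟨q, hq, hqw⟩
    have hinv : ∀ x ∈ W, T x ∈ W := by
      intro x hx
      obtain ⟨q, hq, rfl⟩ := hex x hx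
      rw [L_X]
      apply hmem
      rw [Polynomial.eval_mul, hq, mul_zero]
    have hyV : y ∉ W.topologicalClosure := by
      intro h
      have h2 : y ∈ closure (W : Set E) := h
      rw [Metric.mem_closure_iff] at h2
      obtain ⟨w, hw, hd⟩ := h2 (1 / C) (by positivity)
      obtain ⟨q, hq, rfl⟩ := hex w hw
      have h3 := hC (1 - q)
      have h4 : Polynomial.aeval T (1 - q) y = y - L T y q := by
        rw [← L_apply, map_sub, L_one]
      rw [h4, Polynomial.eval_sub, Polynomial.eval_one, hq, sub_zero, norm_one,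
        ← dist_eq_norm] at h3
      have h5 : C * dist y (L T y q) < C * (1 / C) := mul_lt_mul_of_pos_left hd hC0
      rw [mul_one_div_cancel hC0.ne'] at h5
      linarith
    by_cases hV : W.topologicalClosure = ⊥
    · have h2 : T y = a • y := by
        have h3 : L T y (Polynomial.X - Polynomial.C a) ∈ W.topologicalClosure :=
          W.le_topologicalClosure (hmem _ (by simp))
        rw [hV, Submodule.mem_bot, map_sub, L_apply, L_apply, Polynomial.aeval_X,
          Polynomial.aeval_C, sub_eq_zero] at h3
        exact h3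
      refine ⟨Submodule.span ℂ {y}, Submodule.closed_of_finiteDimensional _, ?_, ?_, ?_⟩
      · intro h3
        rw [Submodule.span_singleton_eq_bot] at h3
        exact hy h3
      · intro h3
        apply hdim
        refine ⟨y, fun x => ?_⟩
        have h4 : x ∈ Submodule.span ℂ {y} := by
          rw [h3]
          exact Submodule.mem_top
        obtain ⟨t, ht⟩ := Submodule.mem_span_singleton.1 h4
        exact ⟨t, ht.symm⟩
      · intro x hx
        obtain ⟨t, rfl⟩ := Submodule.mem_span_singleton.1 hx
        rw [map_smul, h2]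
        exact Submodule.smul_mem _ _ (Submodule.smul_mem _ _ (Submodule.mem_span_singleton_self y))
    · exact ⟨W.topologicalClosure, W.isClosed_topologicalClosure, hV,
        fun h => hyV (h ▸ Submodule.mem_top), inv_closure T W hinv⟩
  · obtain ⟨W, hW⟩ : ∃ W : Submodule ℂ E, W = LinearMap.range (L T y) := ⟨_, rfl⟩
    have hinv : ∀ x ∈ W, T x ∈ W := by
      intro x hx
      rw [hW] at hx ⊢
      obtain ⟨q, rfl⟩ := hx
      exact ⟨Polynomial.X * q, (L_X T y q).symm⟩
    have hyW : y ∈ W := by
      rw [hW]
      exact ⟨1, L_one T y⟩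
    have htop : W.topologicalClosure = ⊤ := by
      by_contra h
      refine hNI ⟨W.topologicalClosure, W.isClosed_topologicalClosure, fun h2 => hy ?_, h,
        inv_closure T W hinv⟩
      have h3 := W.le_topologicalClosure hyW
      rwa [h2, Submodule.mem_bot] at h3
    have h2 : y' ∈ closure (W : Set E) := by
      have h3 : y' ∈ W.topologicalClosure := by
        rw [htop]
        exact Submodule.mem_top
      exact h3
    rw [Metric.mem_closure_iff] at h2
    obtain ⟨w, hw, hd⟩ := h2 ε hε
    rw [hW] at hw
    obtain ⟨q, rfl⟩ := hw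
    refine ⟨q, ?_⟩
    rw [← L_apply, ← dist_eq_norm]
    exact hd.le

end Pool.Agent.H26.LP.EVJ
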