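import Pool.Agent.H26.LP.Stm

/-!
# Project LP, module FRE: the row vector
-/

set_option autoImplicit false

namespace Pool.Agent.H26.LP.FRE

open MeasureTheory Set Metric Filter Topology
open Pool.Agent.Q130.TR

lemma sq_cs {t : ℂ} {c : ℕ → ℂ} (hc : Sq c) : Sq (cs t c) := by
  unfold Sq
  rw [← summable_nat_add_iff 1]
  exact hc

lemma aux (hL : S_L2B) {A : ℕ → ℕ → ℂ} (hA : HS A) {t : ℂ} {c : ℕ → ℂ} (hc : Sq c)
    (h : ∀ i, c i - act (fun i j => A (j + 1) (i + 1)) c i = t * A 0 (i + 1)) (j : ℕ)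
    (hne : cs t c j ≠ 0) : ∃ b : ℕ → ℂ, Sq b ∧ n2 b = 1 ∧ RK A b := by
  have hs : Sq (cs t c) := sq_cs hc
  have hpos : 0 < n2 (cs t c) := (norm_pos_iff.2 hne).trans_le (hL.2.2.2.2.2.1 _ hs j)
  obtain ⟨s1, s2⟩ := hL.2.1 (((n2 (cs t c))⁻¹ : ℝ) : ℂ) (cs t c) hs
  refine ⟨_, s1, ?_, ?_⟩
  · rw [s2, Complex.norm_real, Real.norm_of_nonneg (inv_nonneg.2 hpos.le),
      inv_mul_cancel₀ hpos.ne']
  · intro i
    have hcol : Sq fun k => A k (i + 1) :=
      hA.comp_injective (i := fun k : ℕ => (k, i + 1)) fun a b hab => (Prod.ext_iff.1 hab).1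
    have hsum : Summable fun k => A k (i + 1) * cs t c k := (hL.1 _ _ hcol hs).2.2.2.2.1
    have e1 : ∑' k, A k (i + 1) * cs t c k = A 0 (i + 1) * t + act (fun i j => A (j + 1) (i + 1)) c i := by
      rw [hsum.tsum_eq_zero_add]
      rfl
    have e2 : ∑' k, A k (i + 1) * ((((n2 (cs t c))⁻¹ : ℝ) : ℂ) * cs t c k) =
        (((n2 (cs t c))⁻¹ : ℝ) : ℂ) * ∑' k, A k (i + 1) * cs t c k := by
      rw [← tsum_mul_left]
      refine tsum_congr fun k => ?_
      ring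
    show (((n2 (cs t c))⁻¹ : ℝ) : ℂ) * c i = _
    rw [e2, e1, mul_comm (A 0 (i + 1)) t, ← h i]
    ring

theorem fre (hL : S_L2B) (hF : S_FRD) : S_FRE := by
  intro A hA
  have hB : HS fun i j => A (j + 1) (i + 1) :=
    hA.comp_injective (i := fun p : ℕ × ℕ => (p.2 + 1, p.1 + 1)) (by
      rintro ⟨a, b⟩ ⟨a', b'⟩ hab
      simp only [Prod.mk.injEq, Nat.add_right_cancel_iff] at hab
      exact Prod.ext hab.2 hab.1)
  by_cases h : ∃ c, Sq c ∧ (∀ i, c i = act (fun i j => A (j + 1) (i + 1)) c i) ∧ ∃ j, c j ≠ 0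
  · obtain ⟨c, hc, h1, j, hj⟩ := h
    refine aux hL hA (t := 0) hc (fun i => ?_) (j + 1) hj
    rw [← h1 i]
    ring
  · push Not at h
    have hcol : Sq fun i => A 0 (i + 1) :=
      hA.comp_injective (i := fun k : ℕ => (0, k + 1)) fun a b hab => by
        have := (Prod.ext_iff.1 hab).2
        simpa using this
    obtain ⟨c, hc, h1⟩ := (hF _ hB h).2.1 _ hcol
    refine aux hL hA (t := 1) hc (fun i => ?_) 0 one_ne_zero
    rw [h1 i, one_mul]

end Pool.Agent.H26.LP.FRE
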