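import Pool.Agent.H26.LP.Stm

/-!
# Project LP, module LPC: Banach spaces with a map to `L^p`
-/

set_option autoImplicit false

namespace Pool.Agent.H26.LP.LPC

open MeasureTheory Set Metric Filter Topology
open scoped InnerProductSpace ENNReal NNReal ComplexConjugate

/-- Banach spaces with a bounded map to `L^p(μ)` -/
theorem lpc (hFIN : S_FIN) (S : Type) [MeasurableSpace S] (μ : Measure S) [SigmaFinite μ]
    (p q : ℝ≥0∞) [Fact (1 ≤ p)] [ENNReal.HolderConjugate p q] (φ : S → ℂ)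
    (E : Type) [NormedAddCommGroup E] [NormedSpace ℂ E] [CompleteSpace E]
    (J₀ : E →L[ℂ] Lp ℂ p μ) (A K : E →L[ℂ] E) (g : S → ℂ)
    (v : ℕ → S → ℂ) (u : ℕ → E) (V Y : S → ℝ) (hφ : Measurable φ)
    (hφb : ∃ R : ℝ, ∀ s, ‖φ s‖ ≤ R)
    (hA : ∀ y : E, (J₀ (A y) : S → ℂ) =ᵐ[μ] fun s => φ s * J₀ y s)
    (hg : MemLp g q μ) (hg0 : ∀ y : E, ∫ s, g s * J₀ y s ∂μ = 0)
    (hg1 : ∃ y : E, ∫ s, g s * J₀ y s * conj (φ s) ∂μ ≠ 0)
    (hv : ∀ j, AEStronglyMeasurable (v j) μ) (hV : MemLp V q μ)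
    (hvV : ∀ᵐ s ∂μ, ∀ m : ℕ, ∑ j ∈ Finset.range m, ‖v j s‖ ^ 2 ≤ V s ^ 2) (hY : MemLp Y p μ)
    (huY : ∀ᵐ s ∂μ, ∀ m : ℕ, ∑ j ∈ Finset.range m, ‖J₀ (u j) s‖ ^ 2 ≤ Y s ^ 2)
    (hK : ∀ y : E, HasSum (fun j => (∫ s, v j s * J₀ y s ∂μ) • u j) (K y)) :
    NIB (A + K) := by
  have hqp : ENNReal.HolderConjugate q p := ENNReal.HolderConjugate.symm
  have hq1 : Fact (1 ≤ q) := ⟨ENNReal.HolderConjugate.one_le q p⟩
  -- measurable representatives
  obtain ⟨g', hg'm, hgg'⟩ := hg.1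
  obtain ⟨V', hV'm, hVV'⟩ := hV.1
  obtain ⟨Y', hY'm, hYY'⟩ := hY.1
  have hg' : MemLp g' q μ := (memLp_congr_ae hgg').1 hg
  have hV' : MemLp V' q μ := (memLp_congr_ae hVV').1 hV
  have hY' : MemLp Y' p μ := (memLp_congr_ae hYY').1 hY
  choose v' hv'm hvv' using hv
  obtain ⟨D, hD⟩ : ∃ D : S → ℝ, ∀ s, D s = ‖g' s‖ + |V' s| := ⟨_, fun _ => rfl⟩
  have hDm : Measurable D := by
    have : D = fun s => ‖g' s‖ + |V' s| := funext hD
    rw [this]
    exact hg'm.measurable.norm.add (hV'm.measurable.norm)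
  have hD0 : ∀ s, 0 ≤ D s := fun s => by
    rw [hD]
    positivity
  have hDq : MemLp D q μ := by
    have : D = fun s => ‖g' s‖ + |V' s| := funext hD
    rw [this]
    exact hg'.norm.add hV'.norm
  have hDc : MemLp (fun s => (D s : ℂ)) q μ := hDq.ofReal
  -- the map
  obtain ⟨J, hJ⟩ : ∃ J : E →L[ℂ] Lp ℂ 1 μ, ∀ y : E,
      J y =ᵐ[μ] fun s => (D s : ℂ) * J₀ y s := by
    refine ⟨((ContinuousLinearMap.mul ℂ ℂ).holderL μ q p 1 hDc.toLp) ∘L J₀, fun y => ?_⟩
    have h1 : ((((ContinuousLinearMap.mul ℂ ℂ).holderL μ q p 1 hDc.toLp) ∘L J₀) y) =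
        (ContinuousLinearMap.mul ℂ ℂ).holder 1 hDc.toLp (J₀ y) := rfl
    rw [h1]
    filter_upwards [(ContinuousLinearMap.mul ℂ ℂ).coeFn_holder (r := 1) hDc.toLp (J₀ y),
      hDc.coeFn_toLp] with s h2 h3
    rw [h2, h3]
    rfl
  -- the multipliers
  have e1 : ∀ y : E, (fun s => g' s / D s * J y s) =ᵐ[μ] fun s => g s * J₀ y s := by
    intro y
    filter_upwards [hJ y, hgg'] with s h1 h2
    rw [h1, h2]
    by_cases h3 : D s = 0
    · have h4 : g' s = 0 := by
        have h5 := hD s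
        rw [h3] at h5
        have h6 := norm_nonneg (g' s)
        have h7 := abs_nonneg (V' s)
        exact norm_eq_zero.1 (by linarith)
      rw [h4]
      simp
    · have h4 : (D s : ℂ) ≠ 0 := by exact_mod_cast h3
      field_simp
  have e2 : ∀ (j : ℕ) (y : E), (fun s => v' j s / D s * J y s) =ᵐ[μ]
      fun s => v j s * J₀ y s := by
    intro j y
    filter_upwards [hJ y, hvv' j, hvV, hVV'] with s h1 h2 h3 h4
    rw [h1, h2]
    by_cases h5 : D s = 0
    · have h6 : V' s = 0 := by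
        have h5' := hD s
        rw [h5] at h5'
        have h6 := norm_nonneg (g' s)
        have h7 := abs_nonneg (V' s)
        exact abs_eq_zero.1 (by linarith)
      have h7 : ‖v j s‖ ^ 2 ≤ 0 := by
        have h8 := h3 (j + 1)
        rw [h4, h6] at h8
        refine (Finset.single_le_sum (f := fun j => ‖v j s‖ ^ 2) (fun _ _ => by positivity)
          (Finset.mem_range.2 (Nat.lt_succ_self j))).trans (h8.trans (by norm_num))
      have h8 : v' j s = 0 := by
        rw [← h2]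
        have h9 : ‖v j s‖ ^ 2 = 0 := le_antisymm h7 (by positivity)
        exact norm_eq_zero.1 (pow_eq_zero_iff (two_ne_zero) |>.1 h9)
      rw [h8]
      simp
    · have h6 : (D s : ℂ) ≠ 0 := by exact_mod_cast h5
      field_simp
  refine hFIN S μ φ E A K J (fun s => g' s / D s) (fun j s => v' j s / D s) u 1 1
    (fun s => D s * |Y' s|) hφ hφb ?_ ?_ ?_ ?_ ?_ ?_ ?_ ?_
  · intro y
    filter_upwards [hJ y, hJ (A y), hA y] with s h1 h2 h3
    rw [h2, h1, h3]
    ring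
  · exact hg'm.measurable.div (Complex.measurable_ofReal.comp hDm)
  · intro s
    rw [norm_div, Complex.norm_real, Real.norm_of_nonneg (hD0 s)]
    refine div_le_one_of_le₀ ?_ (hD0 s)
    rw [hD]
    linarith [abs_nonneg (V' s)]
  · intro y
    rw [integral_congr_ae (e1 y)]
    exact hg0 y
  · obtain ⟨y, hy⟩ := hg1
    refine ⟨y, ?_⟩
    rw [integral_congr_ae (g := fun s => g s * J₀ y s * conj (φ s))]
    · exact hy
    · filter_upwards [e1 y] with s h1
      rw [h1]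
  · refine ⟨fun j => (hv'm j).measurable.div (Complex.measurable_ofReal.comp hDm), zero_le_one, ?_⟩
    have h1 : ∀ᵐ s ∂μ, ∀ j, v j s = v' j s := by
      rw [ae_all_iff]
      exact hvv'
    filter_upwards [h1, hvV, hVV'] with s h1 h2 h3 m
    have h4 : ∑ i ∈ Finset.range m, ‖v' i s / (D s : ℂ)‖ ^ 2 =
        (∑ i ∈ Finset.range m, ‖v i s‖ ^ 2) / D s ^ 2 := by
      rw [Finset.sum_div]
      refine Finset.sum_congr rfl fun i _ => ?_
      rw [h1, norm_div, Complex.norm_real, Real.norm_of_nonneg (hD0 s), div_pow]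
    rw [h4, one_pow]
    refine div_le_one_of_le₀ ((h2 m).trans ?_) (by positivity)
    rw [h3, hD, ← sq_abs]
    have := norm_nonneg (g' s)
    exact pow_le_pow_left₀ (abs_nonneg _) (by linarith) 2
  · refine ⟨fun j => (Lp.stronglyMeasurable (J (u j))).measurable,
      hDm.mul hY'm.measurable.norm, fun s => mul_nonneg (hD0 s) (abs_nonneg _), ?_, ?_⟩
    · have h1 : MemLp (fun s => D s * |Y' s|) 1 μ := hY'.norm.mul' hDq
      exact memLp_one_iff_integrable.1 h1
    · have h1 : ∀ᵐ s ∂μ, ∀ j, J (u j) s = (D s : ℂ) * J₀ (u j) s := by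
        rw [ae_all_iff]
        exact fun j => hJ (u j)
      filter_upwards [h1, huY, hYY'] with s h1 h2 h3 m
      have h4 : ∑ j ∈ Finset.range m, ‖J (u j) s‖ ^ 2 =
          D s ^ 2 * ∑ j ∈ Finset.range m, ‖J₀ (u j) s‖ ^ 2 := by
        rw [Finset.mul_sum]
        refine Finset.sum_congr rfl fun i _ => ?_
        rw [h1, norm_mul, Complex.norm_real, Real.norm_of_nonneg (hD0 s), mul_pow]
      rw [h4, mul_pow, sq_abs, ← h3]
      exact mul_le_mul_of_nonneg_left (h2 m) (by positivity)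
  · intro y
    have h1 : ∀ j, ∫ s, v' j s / D s * J y s ∂μ = ∫ s, v j s * J₀ y s ∂μ := fun j =>
      integral_congr_ae (e2 j y)
    simp only [h1]
    exact hK y

end Pool.Agent.H26.LP.LPC
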