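import Pool.Agent.H50.SM.Stm

/-!
# Project LP (helper26): nuclear perturbations of multiplication operators on subspaces of `L^p`

Row MP_f981b0_an. Theorem (`S_FIN`): let `A` be an operator on a complex Banach space `E`,
`J : E → L¹(μ)` bounded with `J A = φ J` (`φ` bounded), `g` bounded with `∫ g J y = 0` for all `y` and
`∫ g conj φ J y ≠ 0` for some `y`. Let `K y = ∑ (∫ v j * J y) • u j`, `∑ |v j|²` bounded,
`(∑ |J u j|²)^(1/2) ≤ Y`, `Y` integrable. Then `A + K` has a nontrivial closed invariant subspace. For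
`K = 0` this is the theorem of S. Brown and Thomson. Corollary: `E` a closed subspace of `L^p`.

Scheme (abstract, structure `CS`): `T = A + K`, functions `c i y z` (in the application
`c i y z = ∫ w i * J y * (z - φ)⁻¹ dμ`, `w = g, v 0, v 1, …`) and vectors `x = x₀, u 0, u 1, …`,
`F(z) = (c i (x j) z)`.
(1) For every `z` there is a unit vector `b` with `b (j + 1) = ∑ i, F i (j + 1) b i` for all `j`
(`S_FRE`: Fredholm alternative, index one). (2) The functional `e y = ∑ i, c i y z * b i` satisfies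
`e (T y) = z e y` (`CS.eig`), so `e (p(T) y) = p(z) e y` (`S_EVP`). Note `e (x j) = ∑ i, F i j b i`.
(3) If `F(a) 0 0 ≠ 0`, then for all `z` with `F(z)` near `F(a)` one of the numbers `e (x j)`, `j ≤ k`, has
modulus at least `η` (`S_LOW`). (4) Weight `W` of a vector `y`: `|p(z)| W(z) ≤ U(z)`, `U` the norm of the
sequence `c i (p(T) y) z`, and `min 1 |e y| ≤ W(z)` (`S_WGX`). (5) Heavy barriers give a bounded point
evaluation (`S_HVX`), hence an invariant subspace (`S_EVJ`). (6) Otherwise `W` is small on the sets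
seen by measures `l n` (`S_LNK2`), the vectors `x j`, `j ≤ k`, are approximated by `p(T) y` (no
invariant subspaces), the remainders are small by the weak type bound: contradiction with (3)
(`S_SCH`). So `F(z) 0 0 = 0` almost everywhere, for all `x₀`; then `∫ g conj φ J x₀ = 0` (`S_CAZ`).
-/

set_option autoImplicit false

namespace Pool.Agent.H26.LP

open MeasureTheory Set Metric Filter Topology
open scoped InnerProductSpace ENNReal NNReal ComplexConjugate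
open Pool.Agent.Y283.NK (ct)
open Pool.Agent.Q130.TC (WT cau)
open Pool.Agent.Q130.TR
open Pool.Agent.H50.SM (df)

/-- `T` has a nontrivial closed invariant subspace -/
def NIB {E : Type} [NormedAddCommGroup E] [NormedSpace ℂ E] (T : E →L[ℂ] E) : Prop :=
  ∃ V : Submodule ℂ E, IsClosed (V : Set E) ∧ V ≠ ⊥ ∧ V ≠ ⊤ ∧ ∀ x ∈ V, T x ∈ V

/-- the dimension is at most one -/
def Dim1 (E : Type) [NormedAddCommGroup E] [NormedSpace ℂ E] : Prop :=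
  ∃ x : E, ∀ y : E, ∃ t : ℂ, y = t • x

/-- the sequence `g, v 0, v 1, …` -/
def cs {α : Type} (g : α) (v : ℕ → α) : ℕ → α
  | 0 => g
  | (j + 1) => v j

/-- `b` is in the row kernel of the matrix `F` without the column `0` -/
def RK (F : ℕ → ℕ → ℂ) (b : ℕ → ℂ) : Prop := ∀ j, b (j + 1) = ∑' i, F i (j + 1) * b i

/-- the axioms of the scheme -/
structure CS {E : Type} [NormedAddCommGroup E] [NormedSpace ℂ E] (T : E →L[ℂ] E)
    (c : ℕ → E → ℂ → ℂ) (x : ℕ → E) (C₀ : ℝ) : Prop where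
  pos : 0 < C₀
  sq : ∀ y, ∀ᵐ z : ℂ, Sq fun i => c i y z
  meas : ∀ y, Measurable fun z => n2 fun i => c i y z
  add : ∀ y y', ∀ᵐ z : ℂ, ∀ i, c i (y + y') z = c i y z + c i y' z
  smul : ∀ (a : ℂ) y, ∀ᵐ z : ℂ, ∀ i, c i (a • y) z = a * c i y z
  loc : ∀ (a : ℂ) (r : ℝ), ∃ B : ℝ, 0 ≤ B ∧ ∀ y,
    ∫⁻ z in ball a r, ENNReal.ofReal (n2 fun i => c i y z) ≤ ENNReal.ofReal (B * ‖y‖)
  wt : ∀ (h : ℂ → ℝ) (C δ : ℝ), Integrable h → (∀ z, 0 ≤ h z) → 0 ≤ C → 0 ≤ δ → WT h C δ →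
    ∀ (y : E) (t : ℝ), 0 < t →
      ∫ z in {z | t ≤ n2 fun i => c i y z}, h z ≤ C₀ * (C * ‖y‖ / t + δ)
  hsm : ∀ᵐ z : ℂ, HS fun i j => c i (x j) z
  apx : ∀ᵐ a : ℂ, ∀ κ ε C : ℝ, 0 < κ → 0 < ε → 0 ≤ C →
    ∃ ρ₀ : ℝ, 0 < ρ₀ ∧ ∀ (r δ : ℝ) (h : ℂ → ℝ), 0 < r → r ≤ ρ₀ → 0 ≤ δ → Integrable h →
      (∀ z, 0 ≤ h z) → (∀ z, z ∉ ball a r → h z = 0) → WT h C δ →
      ∫ z in {z | κ ≤ hs (df (fun i j => c i (x j) z) (fun i j => c i (x j) a))}, h z ≤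
        ε * r + C₀ * δ
  eig : ∀ y, ∀ᵐ z : ℂ, ∀ b : ℕ → ℂ, Sq b → RK (fun i j => c i (x j) z) b →
    ∑' i, c i (T y) z * b i = z * ∑' i, c i y z * b i

/-! ### Matrices -/

/-- FRE (module FRE): the row vector.

Proof. `B i j = A (j + 1) (i + 1)` (Hilbert-Schmidt), so `act B c i = ∑ j, A (j + 1) (i + 1) c j`. If
there is `c ≠ 0`, `Sq c`, `c = act B c`, then `b = cs 0 c` divided by its norm. Otherwise `S_FRD` (proved
in the library, search `: S_FRD`; second part) for `B` and the right-hand side `A 0 (i + 1)` gives `c`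
with `c i - act B c i = A 0 (i + 1)`; `b = cs 1 c` divided by its norm (`n2 (cs 1 c) ≥ 1`). The series
`∑' i, A i (j + 1) * b i` is split as the term `0` plus the rest. -/
def S_FRE : Prop :=
  ∀ A : ℕ → ℕ → ℂ, HS A → ∃ b : ℕ → ℂ, Sq b ∧ n2 b = 1 ∧ RK A b

/-- LOW (module LOW): the lower bound.

Proof. Let `s = ‖F 0 0‖`, `R = n2 (fun i => F i 0)`. Choose `θ > 0` with `θ ≤ 1 / 2` and
`θ * (R + 1) ≤ s / 8`, then `k` such that the Hilbert-Schmidt norm of the part of `F` in the columns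
`j ≥ k` is at most `θ / 4` (tail of a summable family), `κ ≤ θ / 4`, `κ ≤ s / 8`,
`η (k + 1) ≤ θ / 4` and `η < s / 8`. Let `F₁`, `b` be as below and suppose
`‖∑' i, F₁ i j * b i‖ < η` for all `j ≤ k`. Let `b' = (b 1, b 2, …)`, `b (j + 1) = ∑' i, F₁ i (j + 1) b i`.
The terms with `j + 1 ≤ k` have norm at most `(k + 1) η ≤ θ / 4`; for `j + 1 > k` the number `b (j + 1)`
is the sum of `∑' i, (F₁ - F) i (j + 1) b i` (`ℓ²` norm at most `κ`) and `∑' i, F i (j + 1) b i` (`ℓ²` norm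
over these `j` at most `θ / 4`). So `n2 b' ≤ θ`, `‖b 0‖² = 1 - (n2 b')² ≥ 3 / 4`. Finally
`‖∑' i, F₁ i 0 * b i‖ ≥ ‖∑' i, F i 0 * b i‖ - κ ≥ ‖F 0 0‖ ‖b 0‖ - R θ - κ ≥ s / 2 - s / 8 - s / 8 > η`,
a contradiction (`j = 0`). (`act` of the transposed matrices and `S_L2B` may help.) -/
def S_LOW : Prop :=
  ∀ F : ℕ → ℕ → ℂ, HS F → F 0 0 ≠ 0 → ∃ (k : ℕ) (κ η : ℝ), 0 < κ ∧ 0 < η ∧
    ∀ F₁ : ℕ → ℕ → ℂ, HS F₁ → hs (df F₁ F) ≤ κ → ∀ b : ℕ → ℂ, Sq b → n2 b = 1 → RK F₁ b →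
      ∃ j ≤ k, η ≤ ‖∑' i, F₁ i j * b i‖

/-! ### The scheme -/

/-- EVP (module EVP): polynomials.

Proof. `Polynomial.aeval T p y = ∑ k ∈ range (natDegree p + 1), p.coeff k • (T ^ k) y`. For almost every
`z`: `c i` of this sum is the sum (`CS.add`, `CS.smul`, induction over the finite sum; write it as a
statement about finite sums first), the sequences `c i ((T ^ k) y) z` are `Sq`, and
`∑' i, c i ((T ^ k) y) z * b i = z ^ k * ∑' i, c i y z * b i` by `CS.eig` and induction. `tsum` of a finite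
sum: `S_L2B` gives summability of the products. -/
def S_EVP : Prop :=
  ∀ (E : Type) [NormedAddCommGroup E] [NormedSpace ℂ E] (T : E →L[ℂ] E) (c : ℕ → E → ℂ → ℂ)
    (x : ℕ → E) (C₀ : ℝ), CS T c x C₀ → ∀ (y : E) (p : Polynomial ℂ),
    ∀ᵐ z : ℂ, ∀ b : ℕ → ℂ, Sq b → RK (fun i j => c i (x j) z) b →
      ∑' i, c i (Polynomial.aeval T p y) z * b i = p.eval z * ∑' i, c i y z * b i

/-- WGX (module WGX): the weight.

Proof. Copy of `Pool.Agent.H50.SM.WGT.wgt` (`Pool/Agent/H50/SM/Wgt.lean`) with `y k = (T ^ k) y₀`,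
`A k i = c i (y k) z`, `U i z = n2 (fun j => c j (w i) z)` (measurable by `CS.meas`),
`w i = ∑ k, denseSeq (i.2 k) • y k`. The lemmas `upp`, `low`, `Wf_meas`, `Wf_nonneg`, `Wf_le`, `Wf_mul`,
`Wf_ge`, `qv`, `n2_sum` of the namespace `WGT` can be used as they are. Additivity: `CS.add`, `CS.smul` for
the countably many finite sums concerned. -/
def S_WGX : Prop :=
  ∀ (E : Type) [NormedAddCommGroup E] [NormedSpace ℂ E] (T : E →L[ℂ] E) (c : ℕ → E → ℂ → ℂ)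
    (x : ℕ → E) (C₀ : ℝ), CS T c x C₀ → ∀ y : E,
    ∃ W : ℂ → ℝ, Measurable W ∧ (∀ z, 0 ≤ W z ∧ W z ≤ 1) ∧
      (∀ p : Polynomial ℂ, ∀ᵐ z : ℂ,
        ‖p.eval z‖ * W z ≤ n2 fun i => c i (Polynomial.aeval T p y) z) ∧
      ∀ᵐ z : ℂ, ∀ b : ℕ → ℂ, Sq b → n2 b ≤ 1 → RK (fun i j => c i (x j) z) b →
        min 1 ‖∑' i, c i y z * b i‖ ≤ W z

/-- HVX (module HVX): heavy barriers give bounded point evaluations.

Proof. Copy of `Pool.Agent.H50.SM.HVY.hvy` (`Pool/Agent/H50/SM/Hvy.lean`; `eval_le` can be used as it is)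
with `y = Polynomial.aeval T p y₀` and `hB` as the integral bound. -/
def S_HVX : Prop :=
  ∀ (E : Type) [NormedAddCommGroup E] [NormedSpace ℂ E] (T : E →L[ℂ] E) (U : E → ℂ → ℝ) (y : E)
    (W : ℂ → ℝ), Measurable W → (∀ z, 0 ≤ W z ∧ W z ≤ 1) →
    (∀ p : Polynomial ℂ, ∀ᵐ z : ℂ, ‖p.eval z‖ * W z ≤ U (Polynomial.aeval T p y) z) →
    ∀ (a : ℂ) (τ r B : ℝ), 0 < τ → τ < r → 0 ≤ B →
      (∀ y', ∫⁻ z in ball a r, ENNReal.ofReal (U y' z) ≤ ENNReal.ofReal (B * ‖y'‖)) →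
      Cut2 (fun z => (W z : ℂ)) a τ r →
      ∃ C : ℝ, ∀ p : Polynomial ℂ, ‖p.eval a‖ ≤ C * ‖Polynomial.aeval T p y‖

/-- MNY (module MNY): the integral over the complement of finitely many small sets.

Proof. Copy of `Pool.Agent.H50.SM.THM.four` (`Pool/Agent/H50/SM/Thm.lean`: four sets, equal bounds). -/
def S_MNY : Prop :=
  ∀ (l W : ℂ → ℝ), Integrable l → (∀ z, 0 ≤ l z) → Measurable W → (∀ z, 0 ≤ W z ∧ W z ≤ 1) →
    ∀ (m : ℕ) (b : ℕ → Set ℂ) (B : ℕ → ℝ) (η : ℝ), 0 < η →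
      (∀ᵐ z, (∀ i < m, z ∉ b i) → η ≤ W z) → (∀ i < m, ∫ z in b i, l z ≤ B i) →
      η * ∫ z, l z ≤ (∫ z, W z * l z) + η * ∑ i ∈ Finset.range m, B i

/-- EVJ (module EVJ): point evaluations and cyclic vectors.

Proof. (1) `p = 1`: `y ≠ 0`, `C > 0`. `V` = closure of the subspace of the vectors
`Polynomial.aeval T q y` with `q.eval a = 0`. It is closed, invariant under `T`. `y ∉ V`: for
`q.eval a = 0`, `y - aeval T q y = aeval T (1 - q) y` has norm at least `1 / C`. If `V ≠ ⊥`: done. If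
`V = ⊥`: `q = X - C a` gives `T y = a • y`, and the line of `y` is closed, invariant, `≠ ⊥`, `≠ ⊤` by
`¬ Dim1 E`. (2) The closure `V` of the subspace of the vectors `aeval T p y` is closed, invariant, and
contains `y ≠ 0`; so `V = ⊤`. -/
def S_EVJ : Prop :=
  ∀ (E : Type) [NormedAddCommGroup E] [NormedSpace ℂ E] [CompleteSpace E] (T : E →L[ℂ] E),
    ¬ Dim1 E →
    (∀ (y : E) (a : ℂ) (C : ℝ),
      (∀ p : Polynomial ℂ, ‖p.eval a‖ ≤ C * ‖Polynomial.aeval T p y‖) → NIB T) ∧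
    (¬ NIB T → ∀ y : E, y ≠ 0 → ∀ (y' : E) (ε : ℝ), 0 < ε →
      ∃ p : Polynomial ℂ, ‖y' - Polynomial.aeval T p y‖ ≤ ε)

/-- SCH (module SCH, helper26; uses all of the above and `S_LNK2`, `dich3`). -/
def S_SCH : Prop :=
  ∀ (E : Type) [NormedAddCommGroup E] [NormedSpace ℂ E] [CompleteSpace E] (T : E →L[ℂ] E)
    (c : ℕ → E → ℂ → ℂ) (x : ℕ → E) (C₀ : ℝ), CS T c x C₀ → ¬ Dim1 E → ¬ NIB T →
    ∀ᵐ z : ℂ, c 0 (x 0) z = 0

/-! ### Cauchy transforms of integrable functions -/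

/-- the hypotheses on a family of multipliers -/
structure Mul1 {S : Type} [MeasurableSpace S] (μ : Measure S) (w : ℕ → S → ℂ) (B : ℝ) :
    Prop where
  meas : ∀ i, Measurable (w i)
  nonneg : 0 ≤ B
  bound : ∀ᵐ s ∂μ, ∀ m : ℕ, ∑ i ∈ Finset.range m, ‖w i s‖ ^ 2 ≤ B ^ 2

/-- the hypotheses on a family of integrable functions with integrable square function -/
structure Sqf {S : Type} [MeasurableSpace S] (μ : Measure S) (f : ℕ → S → ℂ) (Y : S → ℝ) :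
    Prop where
  meas : ∀ j, Measurable (f j)
  measY : Measurable Y
  nonneg : ∀ s, 0 ≤ Y s
  int : Integrable Y μ
  bound : ∀ᵐ s ∂μ, ∀ m : ℕ, ∑ j ∈ Finset.range m, ‖f j s‖ ^ 2 ≤ Y s ^ 2

/-- TRN (module TRN): reduction to `L²`.

Proof. `p j = f j / √Y`, `q i = conj (w i) * √Y` (in Lean `0 / 0 = 0`; `f j = 0` where `Y = 0`, for almost
every `s`). `∑_{j < m} ‖p j‖² = ∫ ∑ |f j|² / Y ≤ ∫ Y`, the same for `q`; `conj (q i) p j = w i f j` almost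
everywhere. -/
def S_TRN : Prop :=
  ∀ (S : Type) [MeasurableSpace S] (μ : Measure S) [SigmaFinite μ] (w f : ℕ → S → ℂ) (B : ℝ)
    (Y : S → ℝ), Mul1 μ w B → Sqf μ f Y →
    ∃ p q : ℕ → Lp ℂ 2 μ, Summable (fun j => ‖p j‖ ^ 2) ∧ Summable (fun i => ‖q i‖ ^ 2) ∧
      ∑' j, ‖p j‖ ^ 2 ≤ ∫ s, Y s ∂μ ∧ ∑' i, ‖q i‖ ^ 2 ≤ B ^ 2 * ∫ s, Y s ∂μ ∧
      ∀ (φ : S → ℂ) (i j : ℕ) (z : ℂ), ct φ (q i) (p j) z = cau μ φ (fun s => w i s * f j s) z

/-- VEC (module VEC, uses `S_TRN`, `S_HSB`): one function.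

Proof. `S_TRN` with `f = (k, 0, 0, …)`, `Y = ‖k‖`: `Fm φ p q z i 0 = cau μ φ (w i * k) z`,
`Fm φ p q z i (j + 1) = 0`, so `hs (Fm φ p q z) = n2 (fun i => cau μ φ (w i * k) z)`. (a), (b): `S_HSB`,
first part; (c): `S_HSB`, third part, first inequality, with `U₀² = V₀² / B² = ∫ ‖k‖` (for `B > 0`).
(d): Minkowski: `n2 (…) ≤ B ∫ ‖k‖ / ‖z - φ‖ dμ`; or as in `Pool.Agent.H50.SM.HVY.int_n2` from `H2_Fm`
(`Q87/TR/HSB.lean`) and `ea_ball`: `hs(F)² ≤ (∑ ea (p j)) (∑ ea (q i))`, `x y ≤ x² / B + B y²`. -/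
def S_VEC : Prop :=
  (∀ (S : Type) [MeasurableSpace S] (μ : Measure S) [SigmaFinite μ] (φ : S → ℂ) (w : ℕ → S → ℂ)
    (B : ℝ) (k : S → ℂ), Measurable φ → Mul1 μ w B → Measurable k → Integrable k μ →
    (∀ᵐ z : ℂ, Sq fun i => cau μ φ (fun s => w i s * k s) z) ∧
    Measurable (fun z => n2 fun i => cau μ φ (fun s => w i s * k s) z)) ∧
  (∃ C₀ : ℝ, 0 < C₀ ∧ ∀ (h : ℂ → ℝ) (C δ : ℝ), Integrable h → (∀ z, 0 ≤ h z) → 0 ≤ C → 0 ≤ δ →
    WT h C δ → ∀ (S : Type) [MeasurableSpace S] (μ : Measure S) [SigmaFinite μ] (φ : S → ℂ)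
    (w : ℕ → S → ℂ) (B : ℝ) (k : S → ℂ), Measurable φ → Mul1 μ w B → Measurable k →
    Integrable k μ → ∀ t : ℝ, 0 < t →
      ∫ z in {z | t ≤ n2 fun i => cau μ φ (fun s => w i s * k s) z}, h z ≤
        C₀ * (C * (B * ∫ s, ‖k s‖ ∂μ) / t + δ)) ∧
  ∀ (a : ℂ) (r : ℝ), ∃ M : ℝ, 0 ≤ M ∧ ∀ (S : Type) [MeasurableSpace S] (μ : Measure S)
    [SigmaFinite μ] (φ : S → ℂ) (w : ℕ → S → ℂ) (B : ℝ) (k : S → ℂ), Measurable φ → Mul1 μ w B →
    Measurable k → Integrable k μ →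
      ∫⁻ z in ball a r, ENNReal.ofReal (n2 fun i => cau μ φ (fun s => w i s * k s) z) ≤
        ENNReal.ofReal (M * (B * ∫ s, ‖k s‖ ∂μ))

/-- MAT (module MAT, uses `S_TRN`, `S_HSB`, `S_APX`): the matrix.

Proof. `S_TRN`: the matrix is `Fm φ p q z`; `S_HSB`, first part, and `S_APX`. -/
def S_MAT : Prop :=
  ∃ C₀ : ℝ, 0 < C₀ ∧ ∀ (S : Type) [MeasurableSpace S] (μ : Measure S) [SigmaFinite μ]
    (φ : S → ℂ) (w f : ℕ → S → ℂ) (B : ℝ) (Y : S → ℝ), Measurable φ → Mul1 μ w B → Sqf μ f Y →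
    (∀ᵐ z : ℂ, HS fun i j => cau μ φ (fun s => w i s * f j s) z) ∧
    ∀ᵐ a : ℂ, ∀ κ ε C : ℝ, 0 < κ → 0 < ε → 0 ≤ C →
      ∃ ρ₀ : ℝ, 0 < ρ₀ ∧ ∀ (r δ : ℝ) (h : ℂ → ℝ), 0 < r → r ≤ ρ₀ → 0 ≤ δ → Integrable h →
        (∀ z, 0 ≤ h z) → (∀ z, z ∉ ball a r → h z = 0) → WT h C δ →
        ∫ z in {z | κ ≤ hs (df (fun i j => cau μ φ (fun s => w i s * f j s) z)
          (fun i j => cau μ φ (fun s => w i s * f j s) a))}, h z ≤ ε * r + C₀ * δ

/-- EIG (module EIG, uses `S_TRN`, `S_HSB` or direct estimates): the functional is an eigenvector.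

`k` is the function of the vector `y`, `k' = φ k + ∑ ρ j f (j + 1)` that of `T y`,
`ρ j = ∫ w (j + 1) k`, `∫ w 0 k = 0`.
Proof. For almost every `z`, for all `i`: `cau (w i φ k) z = z cau (w i k) z - ∫ w i k`
(`φ (z - φ)⁻¹ = z (z - φ)⁻¹ - 1` off `φ = z`, and `φ = z` has measure zero for `|k| μ` for almost every `z`:
`Pool.Agent.Q86.TR.noatom`, or since `∫ |k| / |z - φ|` is finite with `ENNReal` inverse),
`cau (w i ∑ ρ j f (j + 1)) z = ∑ j, ρ j cau (w i f (j + 1)) z` (`∑ |ρ j|² < ∞` by Minkowski or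
Cauchy-Schwarz, `∑ |ρ j| |f (j + 1)| ≤ ‖ρ‖ Y`, `∫ Y / |z - φ| < ∞` for almost every `z`; dominated
convergence). Multiply by `b i` and sum over `i`: `z e - b 0 ∫ w 0 k - ∑ j, b (j + 1) ρ j +
∑ j, ρ j ∑ i, cau (w i f (j + 1)) z b i = z e` by `RK` (exchange of the sums: `L2B.exch` in
`Q16/TR/L2B.lean`; compare `Pool/Agent/H50/SM/Evl.lean`, which is the `L²` version). -/
def S_EIG : Prop :=
  ∀ (S : Type) [MeasurableSpace S] (μ : Measure S) [SigmaFinite μ] (φ : S → ℂ)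
    (w f : ℕ → S → ℂ) (B : ℝ) (Y : S → ℝ), Measurable φ → (∃ R : ℝ, ∀ s, ‖φ s‖ ≤ R) →
    Mul1 μ w B → Sqf μ f Y → ∀ k k' : S → ℂ, Measurable k → Integrable k μ → Measurable k' →
    Integrable k' μ → (∫ s, w 0 s * k s ∂μ = 0) →
    (∀ᵐ s ∂μ, HasSum (fun j => (∫ s', w (j + 1) s' * k s' ∂μ) * f (j + 1) s)
      (k' s - φ s * k s)) →
    ∀ᵐ z : ℂ, ∀ b : ℕ → ℂ, Sq b →
      RK (fun i j => cau μ φ (fun s => w i s * f j s) z) b →
      ∑' i, cau μ φ (fun s => w i s * k' s) z * b i =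
        z * ∑' i, cau μ φ (fun s => w i s * k s) z * b i

/-- CAZ (module CAZ): vanishing Cauchy transforms.

Proof. `S_CAU` (second part, proved: `Pool.Agent.Q216.TC.cau_main`) with `g = db Θ`, `Θ` smooth with
compact support: `0 = ∫ db Θ z * cau μ φ k z = ∫ k s * ht (db Θ) (φ s) dμ`, and `ht (db Θ) w` is
`- π Θ w` up to the sign (Cauchy-Pompeiu: `Pool.Agent.Y839.RO.main`, first part; see `eval_le` in
`Pool/Agent/H50/SM/Hvy.lean`). Take `Θ w = conj w * χ w`, `χ` a smooth cut-off function which is one on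
the ball of radius `R + 1`, `‖φ s‖ ≤ R`. -/
def S_CAZ : Prop :=
  ∀ (S : Type) [MeasurableSpace S] (μ : Measure S) [SigmaFinite μ] (φ k : S → ℂ), Measurable φ →
    (∃ R : ℝ, ∀ s, ‖φ s‖ ≤ R) → Measurable k → Integrable k μ →
    (∀ᵐ z : ℂ, cau μ φ k z = 0) → ∫ s, k s * conj (φ s) ∂μ = 0

/-! ### The theorem -/

/-- the data of the theorem -/
structure Dat {S : Type} [MeasurableSpace S] (μ : Measure S) (φ : S → ℂ) {E : Type}
    [NormedAddCommGroup E] [NormedSpace ℂ E] (A K : E →L[ℂ] E) (J : E →L[ℂ] Lp ℂ 1 μ)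
    (w : ℕ → S → ℂ) (x : ℕ → E) (B : ℝ) (Y : S → ℝ) : Prop where
  mφ : Measurable φ
  bφ : ∃ R : ℝ, ∀ s, ‖φ s‖ ≤ R
  JA : ∀ y, J (A y) =ᵐ[μ] fun s => φ s * J y s
  mw : Mul1 μ w B
  sf : Sqf μ (fun j => (J (x j) : S → ℂ)) Y
  ann : ∀ y, ∫ s, w 0 s * J y s ∂μ = 0
  rep : ∀ y, HasSum (fun j => (∫ s, w (j + 1) s * J y s ∂μ) • x (j + 1)) (K y)

/-- INS (module INS, uses `S_VEC`, `S_MAT`, `S_EIG`): the instance.

Proof. `sq`, `meas`: `S_VEC`, first part. `wt`: second part, with the constant `C₁ (B ‖J‖ + 1)`;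
`∫ ‖J y s‖ = ‖J y‖` (`L1.norm_eq_integral_norm`), `C (B ‖J y‖) / t + δ ≤ (B ‖J‖ + 1) (C ‖y‖ / t + δ)`.
`loc`: third part. `add`, `smul`: `J (y + y') = J y + J y'` almost everywhere, and integrability of
`w i * J y * (z - φ)⁻¹` for almost every `z` (`S_CAU`, first part). `hsm`, `apx`: `S_MAT`. `eig`: `S_EIG`
with `k = J y`, `k' = J ((A + K) y)`; `J (K y) = ∑ ρ j • J (x (j + 1))` in `L¹` (continuity of `J`), and
pointwise almost everywhere: the series `∑ ρ j J (x (j + 1)) s` converges absolutely for almost every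
`s` (`∑ |ρ j|² < ∞`, square function), and a sequence which converges in `L¹` and pointwise has the same
limits (`tendstoInMeasure`, subsequence). -/
def S_INS : Prop :=
  ∀ (S : Type) [MeasurableSpace S] (μ : Measure S) [SigmaFinite μ] (φ : S → ℂ) (E : Type)
    [NormedAddCommGroup E] [NormedSpace ℂ E] (A K : E →L[ℂ] E) (J : E →L[ℂ] Lp ℂ 1 μ)
    (w : ℕ → S → ℂ) (x : ℕ → E) (B : ℝ) (Y : S → ℝ), Dat μ φ A K J w x B Y →
    ∃ C₀ : ℝ, CS (A + K) (fun i y z => cau μ φ (fun s => w i s * J y s) z) x C₀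

/-- FIN (module FIN, uses `S_INS`, `S_SCH`, `S_CAZ`): the theorem.

Proof. `¬ Dim1 E`: otherwise `A y = c • y`, `φ J y = c J y` and `∫ g conj φ J y = conj c ∫ g J y = 0` for all
`y`. Suppose `¬ NIB (A + K)`. Let `x₀` be arbitrary, `w = cs g v`, `x = cs x₀ u`, `B' ^ 2 = M ^ 2 + B ^ 2` (or
`B' = M + B`), `Y' = ‖J x₀‖ + Y`. `Dat`, `S_INS`, `S_SCH`: `cau μ φ (g * J x₀) z = 0` for almost every `z`;
`S_CAZ`: `∫ g * J x₀ * conj φ = 0`. -/
def S_FIN : Prop :=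
  ∀ (S : Type) [MeasurableSpace S] (μ : Measure S) [SigmaFinite μ] (φ : S → ℂ) (E : Type)
    [NormedAddCommGroup E] [NormedSpace ℂ E] [CompleteSpace E] (A K : E →L[ℂ] E)
    (J : E →L[ℂ] Lp ℂ 1 μ) (g : S → ℂ) (v : ℕ → S → ℂ) (u : ℕ → E) (B M : ℝ) (Y : S → ℝ),
    Measurable φ → (∃ R : ℝ, ∀ s, ‖φ s‖ ≤ R) → (∀ y, J (A y) =ᵐ[μ] fun s => φ s * J y s) →
    Measurable g → (∀ s, ‖g s‖ ≤ M) → (∀ y, ∫ s, g s * J y s ∂μ = 0) →
    (∃ y, ∫ s, g s * J y s * conj (φ s) ∂μ ≠ 0) → Mul1 μ v B →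
    Sqf μ (fun j => (J (u j) : S → ℂ)) Y →
    (∀ y, HasSum (fun j => (∫ s, v j s * J y s ∂μ) • u j) (K y)) → NIB (A + K)

end Pool.Agent.H26.LP
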