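import Pool.Graph.R_pool_sql_team_seeded_3997aac3.Q130.TR.Alt
import Pool.Agent.H26.LP.Stm

/-!
# Project LP, module SCH: the scheme
-/

set_option autoImplicit false

namespace Pool.Agent.H26.LP.SCH

open MeasureTheory Set Metric Filter Topology
open scoped InnerProductSpace ENNReal NNReal ComplexConjugate
open Pool.Agent.H352R3.SA (Den)
open Pool.Agent.Y271.RO (pw fd Cheap)
open Pool.Agent.Q130.TC (WT)
open Pool.Agent.Q130.TR
open Pool.Agent.H50.SM (df S_LNK2)

theorem sch (hL2B : S_L2B) (hFRE : S_FRE) (hLOW : S_LOW) (hEVP : S_EVP) (hWGX : S_WGX)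
    (hHVX : S_HVX) (hMNY : S_MNY) (hEVJ : S_EVJ) (hLNK : S_LNK2) : S_SCH := by
  intro E _ _ _ T c x C₀ hCS hdim hNI
  by_contra hnot
  obtain ⟨y₁, hy₁⟩ : ∃ y₁ : E, y₁ ≠ 0 := by
    by_contra hall
    push Not at hall
    exact hdim ⟨0, fun y => ⟨0, by rw [hall y, smul_zero]⟩⟩
  obtain ⟨W, hWm, hW01, hWup, hWlo⟩ := hWGX E T c x C₀ hCS y₁
  obtain ⟨C, cc, hC, hc, hL⟩ := hLNK
  have hC₀ := hCS.pos
  -- the point
  obtain ⟨a, ha0, haHS, haapx⟩ : ∃ a : ℂ, c 0 (x 0) a ≠ 0 ∧ HS (fun i j => c i (x j) a) ∧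
      (∀ κ ε C : ℝ, 0 < κ → 0 < ε → 0 ≤ C →
    ∃ ρ₀ : ℝ, 0 < ρ₀ ∧ ∀ (r δ : ℝ) (h : ℂ → ℝ), 0 < r → r ≤ ρ₀ → 0 ≤ δ → Integrable h →
      (∀ z, 0 ≤ h z) → (∀ z, z ∉ ball a r → h z = 0) → WT h C δ →
      ∫ z in {z | κ ≤ hs (df (fun i j => c i (x j) z) (fun i j => c i (x j) a))}, h z ≤
        ε * r + C₀ * δ) := by
    by_contra hall
    apply hnot
    filter_upwards [hCS.hsm, hCS.apx] with z h1 h2
    by_contra h3
    exact hall ⟨z, h3, h1, h2⟩
  obtain ⟨k, κ, η, hκ, hη, hlow⟩ := hLOW _ haHS ha0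
  obtain ⟨r, hr0, hB0⟩ := haapx κ (cc / 4) C hκ (by positivity) hC.le
  rcases dich3 W hWm hW01 a r hr0 with h | ⟨τ, h1, h2, h3⟩
  · have hwm : Measurable (fun z => (W z : ℂ)) := Complex.measurable_ofReal.comp hWm
    have hwi : IntegrableOn (fun z => (W z : ℂ)) (ball a r) := by
      refine Measure.integrableOn_of_bounded (M := 1) measure_ball_lt_top.ne
        hwm.aestronglyMeasurable (Eventually.of_forall fun z => ?_)
      rw [Complex.norm_real, Real.norm_eq_abs, abs_of_nonneg (hW01 z).1]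
      exact (hW01 z).2
    obtain ⟨l, δ, hl, hls, hli, hδ0, hδ, hWT, hlim⟩ := hL _ a r hr0 hwm hwi h
    -- approximation of the vectors `x j`
    obtain ⟨ε₁, hε₁⟩ : ∃ ε₁ : ℝ, ε₁ = cc * r * η / (8 * (k + 1) * C₀ * C) := ⟨_, rfl⟩
    have hε₁0 : 0 < ε₁ := by
      rw [hε₁]
      positivity
    have happ : ∀ j, ∃ p : Polynomial ℂ, ‖x j - Polynomial.aeval T p y₁‖ ≤ ε₁ := fun j =>
      (hEVJ E T hdim).2 hNI y₁ hy₁ (x j) ε₁ hε₁0
    choose P hP using happ
    obtain ⟨y', hy'⟩ : ∃ y' : ℕ → E, ∀ j, y' j = x j - Polynomial.aeval T (P j) y₁ :=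
      ⟨_, fun _ => rfl⟩
    -- a bound for the polynomials
    obtain ⟨M, hM1, hM⟩ : ∃ M : ℝ, 1 ≤ M ∧ ∀ j ≤ k, ∀ z ∈ ball a r, ‖(P j).eval z‖ ≤ M := by
      have h5 : ∀ j, ∃ M : ℝ, ∀ z ∈ closedBall a r, ‖(P j).eval z‖ ≤ M := fun j =>
        (isCompact_closedBall a r).exists_bound_of_continuousOn
          (f := fun z : ℂ => (P j).eval z) ((P j).continuous.continuousOn)
      choose M hM using h5
      refine ⟨1 + ∑ j ∈ Finset.range (k + 1), |M j|, ?_, ?_⟩
      · have : 0 ≤ ∑ j ∈ Finset.range (k + 1), |M j| := Finset.sum_nonneg fun _ _ => abs_nonneg _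
        linarith
      · intro j hj z hz
        have h6 : |M j| ≤ ∑ j ∈ Finset.range (k + 1), |M j| :=
          Finset.single_le_sum (f := fun j => |M j|) (fun _ _ => abs_nonneg _)
            (Finset.mem_range.2 (Nat.lt_succ_of_le hj))
        have h7 := hM j z (ball_subset_closedBall hz)
        have h8 := le_abs_self (M j)
        linarith
    have hM0 : 0 < M := by linarith
    obtain ⟨η', hη'⟩ : ∃ η' : ℝ, η' = min 1 (η / (2 * M)) := ⟨_, rfl⟩
    have hη'0 : 0 < η' := by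
      rw [hη']
      exact lt_min one_pos (by positivity)
    -- the bad sets
    obtain ⟨b, hb⟩ : ∃ b : ℕ → Set ℂ, b = cs
        {z | κ ≤ hs (df (fun i j => c i (x j) z) (fun i j => c i (x j) a))}
        (cs (ball a r)ᶜ fun j => {z | η / 2 ≤ n2 fun i => c i (y' j) z}) := ⟨_, rfl⟩
    have hgood : ∀ᵐ z, (∀ i < k + 3, z ∉ b i) → η' ≤ W z := by
      have g1 : ∀ᵐ z : ℂ, ∀ j, Sq fun i => c i (y' j) z := by
        rw [ae_all_iff]
        exact fun j => hCS.sq _
      have g2 : ∀ᵐ z : ℂ, ∀ j, Sq fun i => c i (Polynomial.aeval T (P j) y₁) z := by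
        rw [ae_all_iff]
        exact fun j => hCS.sq _
      have g3 : ∀ᵐ z : ℂ, ∀ j, ∀ i, c i (y' j + Polynomial.aeval T (P j) y₁) z =
          c i (y' j) z + c i (Polynomial.aeval T (P j) y₁) z := by
        rw [ae_all_iff]
        exact fun j => hCS.add _ _
      have g4 : ∀ᵐ z : ℂ, ∀ j, ∀ b : ℕ → ℂ, Sq b → RK (fun i j => c i (x j) z) b →
          ∑' i, c i (Polynomial.aeval T (P j) y₁) z * b i =
            (P j).eval z * ∑' i, c i y₁ z * b i := by
        rw [ae_all_iff]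
        exact fun j => hEVP E T c x C₀ hCS y₁ (P j)
      filter_upwards [hCS.hsm, g1, g2, g3, g4, hWlo] with z q0 q1 q2 q3 q4 q5 hz
      obtain ⟨d, hd1, hd2, hd3⟩ := hFRE _ q0
      have hz0 := hz 0 (by omega)
      have hz1 := hz 1 (by omega)
      have hz2 : ∀ j ≤ k, ¬ (η / 2 ≤ n2 fun i => c i (y' j) z) := by
        intro j hj
        have h5 := hz (j + 2) (by omega)
        rw [hb] at h5
        exact h5
      rw [hb] at hz0 hz1
      have hz0' : ¬ (κ ≤ hs (df (fun i j => c i (x j) z) (fun i j => c i (x j) a))) := hz0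
      have hz1' : z ∈ ball a r := by
        by_contra h5
        exact hz1 h5
      obtain ⟨j, hj, hj2⟩ := hlow _ q0 (not_le.1 hz0').le d hd1 hd2 hd3
      have e1 : ∀ i, c i (x j) z = c i (y' j) z + c i (Polynomial.aeval T (P j) y₁) z := by
        intro i
        rw [← q3 j i, hy', sub_add_cancel]
      have s1 := (hL2B.1 _ _ (q1 j) hd1).2.2.2.2
      have s2 := (hL2B.1 _ _ (q2 j) hd1).2.2.2.2
      have e2 : ∑' i, c i (x j) z * d i = (∑' i, c i (y' j) z * d i) +
          (P j).eval z * ∑' i, c i y₁ z * d i := by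
        rw [← q4 j d hd1 hd3, ← Summable.tsum_add s1.1 s2.1]
        refine tsum_congr fun i => ?_
        rw [e1]
        ring
      have h6 : ‖∑' i, c i (y' j) z * d i‖ ≤ η / 2 := by
        have h7 := s1.2
        rw [hd2, mul_one] at h7
        exact h7.trans (not_le.1 (hz2 j hj)).le
      have h7 : ‖(P j).eval z * ∑' i, c i y₁ z * d i‖ ≤ M * ‖∑' i, c i y₁ z * d i‖ := by
        rw [norm_mul]
        exact mul_le_mul_of_nonneg_right (hM j hj z hz1') (norm_nonneg _)
      have h8 : η ≤ η / 2 + M * ‖∑' i, c i y₁ z * d i‖ := by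
        refine hj2.trans ?_
        show ‖∑' i, c i (x j) z * d i‖ ≤ _
        rw [e2]
        exact (norm_add_le _ _).trans (add_le_add h6 h7)
      have h9 : η / (2 * M) ≤ ‖∑' i, c i y₁ z * d i‖ := by
        rw [div_le_iff₀ (by positivity)]
        linarith
      rw [hη']
      exact (min_le_min le_rfl h9).trans (q5 d hd1 hd2.le hd3)
    have key : ∀ n, η' * (cc * r) ≤ (∫ z, ‖(W z : ℂ)‖ * l n z) +
        η' * ((k + 1) * (C₀ * (C * ε₁ / (η / 2) + δ n)) + 0 + (cc / 4 * r + C₀ * δ n)) := by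
      intro n
      have hint : Integrable (l n) := (hl n).cont.integrable_of_hasCompactSupport (hl n).supp
      have h5 := hMNY (l n) W hint (hl n).nonneg hWm hW01 (k + 3) b
        (cs (cc / 4 * r + C₀ * δ n) (cs 0 fun _ => C₀ * (C * ε₁ / (η / 2) + δ n))) η' hη'0 hgood ?_
      · have e3 : ∑ i ∈ Finset.range (k + 3),
            cs (cc / 4 * r + C₀ * δ n) (cs 0 fun _ => C₀ * (C * ε₁ / (η / 2) + δ n)) i =
            (k + 1) * (C₀ * (C * ε₁ / (η / 2) + δ n)) + 0 + (cc / 4 * r + C₀ * δ n) := by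
          rw [Finset.sum_range_succ', Finset.sum_range_succ']
          have e4 : ∀ i, cs (cc / 4 * r + C₀ * δ n)
              (cs 0 fun _ => C₀ * (C * ε₁ / (η / 2) + δ n)) (i + 1 + 1) =
              C₀ * (C * ε₁ / (η / 2) + δ n) := fun i => rfl
          simp only [e4, Finset.sum_const, Finset.card_range, nsmul_eq_mul, Nat.cast_add,
            Nat.cast_one]
          rfl
        rw [hli n, e3] at h5
        have e : ∀ z, ‖(W z : ℂ)‖ * l n z = W z * l n z := fun z => by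
          rw [Complex.norm_real, Real.norm_eq_abs, abs_of_nonneg (hW01 z).1]
        simp only [e]
        exact h5
      · intro i hi
        rcases i with _ | _ | j
        · rw [hb]
          exact hB0 r (δ n) (l n) hr0 le_rfl (hδ0 n) hint (hl n).nonneg (hls n) (hWT n)
        · rw [hb]
          show ∫ z in (ball a r)ᶜ, l n z ≤ 0
          rw [setIntegral_eq_zero_of_forall_eq_zero]
          intro z hz
          exact hls n z hz
        · rw [hb]
          show ∫ z in {z | η / 2 ≤ n2 fun i => c i (y' j) z}, l n z ≤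
            C₀ * (C * ε₁ / (η / 2) + δ n)
          refine (hCS.wt (l n) C (δ n) hint (hl n).nonneg hC.le (hδ0 n) (hWT n) (y' j) (η / 2)
            (by positivity)).trans ?_
          have h6 : ‖y' j‖ ≤ ε₁ := by
            rw [hy']
            exact hP j
          gcongr
    have hlim2 : Tendsto (fun n => (∫ z, ‖(W z : ℂ)‖ * l n z) +
        η' * ((k + 1) * (C₀ * (C * ε₁ / (η / 2) + δ n)) + 0 + (cc / 4 * r + C₀ * δ n))) atTop
        (𝓝 (0 + η' * ((k + 1) * (C₀ * (C * ε₁ / (η / 2) + 0)) + 0 + (cc / 4 * r + C₀ * 0)))) :=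
      hlim.add (((((((tendsto_const_nhds.add hδ).const_mul C₀).const_mul _).add
        tendsto_const_nhds).add (tendsto_const_nhds.add (hδ.const_mul C₀)))).const_mul η')
    have h6 := ge_of_tendsto' hlim2 key
    have h7 : (k + 1 : ℝ) * (C₀ * (C * ε₁ / (η / 2) + 0)) = cc * r / 4 := by
      rw [hε₁]
      field_simp
      ring
    rw [h7] at h6
    have h8 : 0 < η' * (cc * r) := by positivity
    nlinarith
  · obtain ⟨B, hB, hB2⟩ := hCS.loc a (2 * r)
    obtain ⟨C1, hC1⟩ := hHVX E T (fun y z => n2 fun i => c i y z) y₁ W hWm hW01 hWup a τ (2 * r) B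
      h1 h2 hB hB2 h3
    exact hNI ((hEVJ E T hdim).1 y₁ a C1 hC1)

end Pool.Agent.H26.LP.SCH
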