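import Pool.Graph.R_pool_sql_team_seeded_3997aac3.Q130.TR.Main
import Pool.Agent.H50.SM.Apx
import Pool.Agent.H50.SM.Lnk2
import Pool.Agent.H50.LP.Eig
import Pool.Agent.H16.LP.TRN
import Pool.Agent.H16.LP.VEC
import Pool.Agent.H22.LP.Caz
import Pool.Agent.H22.LP.Wgx
import Pool.Agent.H39.LP.Ins
import Pool.Agent.H41.LP.Hvx
import Pool.Agent.H26.LP.Evj
import Pool.Agent.H26.LP.Fre
import Pool.Agent.H82.LP.Mat
import Pool.Agent.H82.LP.Mny
import Pool.Agent.H84.LP.Evp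
import Pool.Agent.H84.LP.Low
import Pool.Agent.H99.LP.Fin
import Pool.Agent.H26.LP.Sch
import Pool.Agent.H26.LP.Lpc

/-!
# Project LP (helper26): the theorem from its parts
-/

set_option autoImplicit false

namespace Pool.Agent.H26.LP

open Pool.Agent.Q130.TR

theorem tSCH : S_SCH :=
  SCH.sch rL2B (FRE.fre rL2B (Pool.Agent.Q135.TR.frd rL2B)) Pool.Agent.H84.LP.low
    Pool.Agent.H84.LP.evp (Pool.Agent.H22.LP.wgx rL2B) Pool.Agent.H41.LP.hvx
    Pool.Agent.H82.LP.mny EVJ.evj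
    (Pool.Agent.H50.SM.LNK2.lnk2 Pool.Agent.Q130.TC.wML2 Pool.Agent.Q88.TC.ply)

theorem tINS : S_INS :=
  Pool.Agent.H39.LP.ins Pool.Agent.Q216.TC.cau_main
    (Pool.Agent.H16.LP.VEC.vec Pool.Agent.H16.LP.TRN.trn rHSB)
    (Pool.Agent.H82.LP.mat Pool.Agent.H16.LP.TRN.trn rHSB (Pool.Agent.H50.SM.APX.apx rL2B rHSB))
    Pool.Agent.H50.LP.eig

/-- **operators with a model in `L¹`, perturbed** -/
theorem main : S_FIN :=
  Pool.Agent.H99.LP.fin tINS tSCH Pool.Agent.H22.LP.caz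

end Pool.Agent.H26.LP
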