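import Pool.Agent.H26.LP.All

/-!
# Project LP: cyclic vectors and bounded point evaluations (helper26)

The scheme gives more than invariant subspaces: if `y₁` is a cyclic vector of `T = A + K` then almost
every `a` at which the Cauchy transform of `g J x₀` does not vanish is a bounded point evaluation for
`y₁`: `|p(a)| ≤ C ‖p(T) y₁‖` for all polynomials `p`.
-/

set_option autoImplicit false

namespace Pool.Agent.H26.LP.CYC

open MeasureTheory Set Metric Filter Topology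
open scoped InnerProductSpace ENNReal NNReal ComplexConjugate
open Pool.Agent.H352R3.SA (Den)
open Pool.Agent.Y271.RO (pw fd Cheap)
open Pool.Agent.Q130.TC (WT cau)
open Pool.Agent.Q130.TR
open Pool.Agent.H50.SM (df S_LNK2)

/-- `y` is a cyclic vector -/
def Cyc {E : Type} [NormedAddCommGroup E] [NormedSpace ℂ E] (T : E →L[ℂ] E) (y : E) : Prop :=
  ∀ (y' : E) (ε : ℝ), 0 < ε → ∃ p : Polynomial ℂ, ‖y' - Polynomial.aeval T p y‖ ≤ ε

/-- `a` is a bounded point evaluation for `y` -/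
def Bpe {E : Type} [NormedAddCommGroup E] [NormedSpace ℂ E] (T : E →L[ℂ] E) (y : E) (a : ℂ) :
    Prop := ∃ C : ℝ, ∀ p : Polynomial ℂ, ‖p.eval a‖ ≤ C * ‖Polynomial.aeval T p y‖

/-- the scheme for a cyclic vector -/
theorem sch2 (hL2B : S_L2B) (hFRE : S_FRE) (hLOW : S_LOW) (hEVP : S_EVP) (hWGX : S_WGX)
    (hHVX : S_HVX) (hMNY : S_MNY) (hLNK : S_LNK2) (E : Type) [NormedAddCommGroup E]
    [NormedSpace ℂ E] (T : E →L[ℂ] E) (c : ℕ → E → ℂ → ℂ) (x : ℕ → E) (C₀ : ℝ)
    (hCS : CS T c x C₀) (y₁ : E) (hy₁ : Cyc T y₁) :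
    ∀ᵐ a : ℂ, c 0 (x 0) a ≠ 0 → Bpe T y₁ a := by
  obtain ⟨W, hWm, hW01, hWup, hWlo⟩ := hWGX E T c x C₀ hCS y₁
  obtain ⟨C, cc, hC, hc, hL⟩ := hLNK
  have hC₀ := hCS.pos
  filter_upwards [hCS.hsm, hCS.apx] with a haHS haapx ha0
  obtain ⟨k, κ, η, hκ, hη, hlow⟩ := hLOW _ haHS ha0
  obtain ⟨r, hr0, hB0⟩ := haapx κ (cc / 4) C hκ (by positivity) hC.le
  rcases dich3 W hWm hW01 a r hr0 with h | ⟨τ, h1, h2, h3⟩
  · have hwm : Measurable (fun z => (W z : ℂ)) := Complex.measurable_ofReal.comp hWm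
    have hwi : IntegrableOn (fun z => (W z : ℂ)) (ball a r) := by
      refine Measure.integrableOn_of_bounded (M := 1) measure_ball_lt_top.ne
        hwm.aestronglyMeasurable (Eventually.of_forall fun z => ?_)
      rw [Complex.norm_real, Real.norm_eq_abs, abs_of_nonneg (hW01 z).1]
      exact (hW01 z).2
    obtain ⟨l, δ, hl, hls, hli, hδ0, hδ, hWT, hlim⟩ := hL _ a r hr0 hwm hwi h
    exfalso
    -- approximation of the vectors `x j`
    obtain ⟨ε₁, hε₁⟩ : ∃ ε₁ : ℝ, ε₁ = cc * r * η / (8 * (k + 1) * C₀ * C) := ⟨_, rfl⟩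
    have hε₁0 : 0 < ε₁ := by
      rw [hε₁]
      positivity
    have happ : ∀ j, ∃ p : Polynomial ℂ, ‖x j - Polynomial.aeval T p y₁‖ ≤ ε₁ := fun j =>
      hy₁ (x j) ε₁ hε₁0
    choose P hP using happ
    obtain ⟨y', hy'⟩ : ∃ y' : ℕ → E, ∀ j, y' j = x j - Polynomial.aeval T (P j) y₁ :=
      ⟨_, fun _ => rfl⟩
    -- a bound for the polynomials
    obtain ⟨M, hM1, hM⟩ : ∃ M : ℝ, 1 ≤ M ∧ ∀ j ≤ k, ∀ z ∈ ball a r, ‖(P j).eval z‖ ≤ M := by
      have h5 : ∀ j, ∃ M : ℝ, ∀ z ∈ closedBall a r, ‖(P j).eval z‖ ≤ M := fun j =>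
        (isCompact_closedBall a r).exists_bound_of_continuousOn
          (f := fun z : ℂ => (P j).eval z) ((P j).continuous.continuousOn)
      choose M hM using h5
      refine ⟨1 + ∑ j ∈ Finset.range (k + 1), |M j|, ?_, ?_⟩
      · have : 0 ≤ ∑ j ∈ Finset.range (k + 1), |M j| := Finset.sum_nonneg fun _ _ => abs_nonneg _
        linarith
      · intro j hj z hz
        have h6 : |M j| ≤ ∑ j ∈ Finset.range (k + 1), |M j| :=
          Finset.single_le_sum (f := fun j => |M j|) (fun _ _ => abs_nonneg _)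
            (Finset.mem_range.2 (Nat.lt_succ_of_le hj))
        have h7 := hM j z (ball_subset_closedBall hz)
        have h8 := le_abs_self (M j)
        linarith
    have hM0 : 0 < M := by linarith
    obtain ⟨η', hη'⟩ : ∃ η' : ℝ, η' = min 1 (η / (2 * M)) := ⟨_, rfl⟩
    have hη'0 : 0 < η' := by
      rw [hη']
      exact lt_min one_pos (by positivity)
    -- the bad sets
    obtain ⟨b, hb⟩ : ∃ b : ℕ → Set ℂ, b = cs
        {z | κ ≤ hs (df (fun i j => c i (x j) z) (fun i j => c i (x j) a))}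
        (cs (ball a r)ᶜ fun j => {z | η / 2 ≤ n2 fun i => c i (y' j) z}) := ⟨_, rfl⟩
    have hgood : ∀ᵐ z, (∀ i < k + 3, z ∉ b i) → η' ≤ W z := by
      have g1 : ∀ᵐ z : ℂ, ∀ j, Sq fun i => c i (y' j) z := by
        rw [ae_all_iff]
        exact fun j => hCS.sq _
      have g2 : ∀ᵐ z : ℂ, ∀ j, Sq fun i => c i (Polynomial.aeval T (P j) y₁) z := by
        rw [ae_all_iff]
        exact fun j => hCS.sq _
      have g3 : ∀ᵐ z : ℂ, ∀ j, ∀ i, c i (y' j + Polynomial.aeval T (P j) y₁) z =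
          c i (y' j) z + c i (Polynomial.aeval T (P j) y₁) z := by
        rw [ae_all_iff]
        exact fun j => hCS.add _ _
      have g4 : ∀ᵐ z : ℂ, ∀ j, ∀ b : ℕ → ℂ, Sq b → RK (fun i j => c i (x j) z) b →
          ∑' i, c i (Polynomial.aeval T (P j) y₁) z * b i =
            (P j).eval z * ∑' i, c i y₁ z * b i := by
        rw [ae_all_iff]
        exact fun j => hEVP E T c x C₀ hCS y₁ (P j)
      filter_upwards [hCS.hsm, g1, g2, g3, g4, hWlo] with z q0 q1 q2 q3 q4 q5 hz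
      obtain ⟨d, hd1, hd2, hd3⟩ := hFRE _ q0
      have hz0 := hz 0 (by omega)
      have hz1 := hz 1 (by omega)
      have hz2 : ∀ j ≤ k, ¬ (η / 2 ≤ n2 fun i => c i (y' j) z) := by
        intro j hj
        have h5 := hz (j + 2) (by omega)
        rw [hb] at h5
        exact h5
      rw [hb] at hz0 hz1
      have hz0' : ¬ (κ ≤ hs (df (fun i j => c i (x j) z) (fun i j => c i (x j) a))) := hz0
      have hz1' : z ∈ ball a r := by
        by_contra h5
        exact hz1 h5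
      obtain ⟨j, hj, hj2⟩ := hlow _ q0 (not_le.1 hz0').le d hd1 hd2 hd3
      have e1 : ∀ i, c i (x j) z = c i (y' j) z + c i (Polynomial.aeval T (P j) y₁) z := by
        intro i
        rw [← q3 j i, hy', sub_add_cancel]
      have s1 := (hL2B.1 _ _ (q1 j) hd1).2.2.2.2
      have s2 := (hL2B.1 _ _ (q2 j) hd1).2.2.2.2
      have e2 : ∑' i, c i (x j) z * d i = (∑' i, c i (y' j) z * d i) +
          (P j).eval z * ∑' i, c i y₁ z * d i := by
        rw [← q4 j d hd1 hd3, ← Summable.tsum_add s1.1 s2.1]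
        refine tsum_congr fun i => ?_
        rw [e1]
        ring
      have h6 : ‖∑' i, c i (y' j) z * d i‖ ≤ η / 2 := by
        have h7 := s1.2
        rw [hd2, mul_one] at h7
        exact h7.trans (not_le.1 (hz2 j hj)).le
      have h7 : ‖(P j).eval z * ∑' i, c i y₁ z * d i‖ ≤ M * ‖∑' i, c i y₁ z * d i‖ := by
        rw [norm_mul]
        exact mul_le_mul_of_nonneg_right (hM j hj z hz1') (norm_nonneg _)
      have h8 : η ≤ η / 2 + M * ‖∑' i, c i y₁ z * d i‖ := by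
        refine hj2.trans ?_
        show ‖∑' i, c i (x j) z * d i‖ ≤ _
        rw [e2]
        exact (norm_add_le _ _).trans (add_le_add h6 h7)
      have h9 : η / (2 * M) ≤ ‖∑' i, c i y₁ z * d i‖ := by
        rw [div_le_iff₀ (by positivity)]
        linarith
      rw [hη']
      exact (min_le_min le_rfl h9).trans (q5 d hd1 hd2.le hd3)
    have key : ∀ n, η' * (cc * r) ≤ (∫ z, ‖(W z : ℂ)‖ * l n z) +
        η' * ((k + 1) * (C₀ * (C * ε₁ / (η / 2) + δ n)) + 0 + (cc / 4 * r + C₀ * δ n)) := by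
      intro n
      have hint : Integrable (l n) := (hl n).cont.integrable_of_hasCompactSupport (hl n).supp
      have h5 := hMNY (l n) W hint (hl n).nonneg hWm hW01 (k + 3) b
        (cs (cc / 4 * r + C₀ * δ n) (cs 0 fun _ => C₀ * (C * ε₁ / (η / 2) + δ n))) η' hη'0 hgood ?_
      · have e3 : ∑ i ∈ Finset.range (k + 3),
            cs (cc / 4 * r + C₀ * δ n) (cs 0 fun _ => C₀ * (C * ε₁ / (η / 2) + δ n)) i =
            (k + 1) * (C₀ * (C * ε₁ / (η / 2) + δ n)) + 0 + (cc / 4 * r + C₀ * δ n) := by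
          rw [Finset.sum_range_succ', Finset.sum_range_succ']
          have e4 : ∀ i, cs (cc / 4 * r + C₀ * δ n)
              (cs 0 fun _ => C₀ * (C * ε₁ / (η / 2) + δ n)) (i + 1 + 1) =
              C₀ * (C * ε₁ / (η / 2) + δ n) := fun i => rfl
          simp only [e4, Finset.sum_const, Finset.card_range, nsmul_eq_mul, Nat.cast_add,
            Nat.cast_one]
          rfl
        rw [hli n, e3] at h5
        have e : ∀ z, ‖(W z : ℂ)‖ * l n z = W z * l n z := fun z => by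
          rw [Complex.norm_real, Real.norm_eq_abs, abs_of_nonneg (hW01 z).1]
        simp only [e]
        exact h5
      · intro i hi
        rcases i with _ | _ | j
        · rw [hb]
          exact hB0 r (δ n) (l n) hr0 le_rfl (hδ0 n) hint (hl n).nonneg (hls n) (hWT n)
        · rw [hb]
          show ∫ z in (ball a r)ᶜ, l n z ≤ 0
          rw [setIntegral_eq_zero_of_forall_eq_zero]
          intro z hz
          exact hls n z hz
        · rw [hb]
          show ∫ z in {z | η / 2 ≤ n2 fun i => c i (y' j) z}, l n z ≤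
            C₀ * (C * ε₁ / (η / 2) + δ n)
          refine (hCS.wt (l n) C (δ n) hint (hl n).nonneg hC.le (hδ0 n) (hWT n) (y' j) (η / 2)
            (by positivity)).trans ?_
          have h6 : ‖y' j‖ ≤ ε₁ := by
            rw [hy']
            exact hP j
          gcongr
    have hlim2 : Tendsto (fun n => (∫ z, ‖(W z : ℂ)‖ * l n z) +
        η' * ((k + 1) * (C₀ * (C * ε₁ / (η / 2) + δ n)) + 0 + (cc / 4 * r + C₀ * δ n))) atTop
        (𝓝 (0 + η' * ((k + 1) * (C₀ * (C * ε₁ / (η / 2) + 0)) + 0 + (cc / 4 * r + C₀ * 0)))) :=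
      hlim.add (((((((tendsto_const_nhds.add hδ).const_mul C₀).const_mul _).add
        tendsto_const_nhds).add (tendsto_const_nhds.add (hδ.const_mul C₀)))).const_mul η')
    have h6 := ge_of_tendsto' hlim2 key
    have h7 : (k + 1 : ℝ) * (C₀ * (C * ε₁ / (η / 2) + 0)) = cc * r / 4 := by
      rw [hε₁]
      field_simp
      ring
    rw [h7] at h6
    have h8 : 0 < η' * (cc * r) := by positivity
    nlinarith
  · obtain ⟨B, hB, hB2⟩ := hCS.loc a (2 * r)
    obtain ⟨C1, hC1⟩ := hHVX E T (fun y z => n2 fun i => c i y z) y₁ W hWm hW01 hWup a τ (2 * r) B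
      h1 h2 hB hB2 h3
    exact ⟨C1, hC1⟩

/-- the conclusion `P` for the data of `S_FIN` -/
def FinP (P : ∀ (E : Type) [NormedAddCommGroup E] [NormedSpace ℂ E], (E →L[ℂ] E) → Prop) :
    Prop :=
  ∀ (S : Type) [MeasurableSpace S] (μ : Measure S) [SigmaFinite μ] (φ : S → ℂ) (E : Type)
    [NormedAddCommGroup E] [NormedSpace ℂ E] [CompleteSpace E] (A K : E →L[ℂ] E)
    (J : E →L[ℂ] Lp ℂ 1 μ) (g : S → ℂ) (v : ℕ → S → ℂ) (u : ℕ → E) (B M : ℝ) (Y : S → ℝ),
    Measurable φ → (∃ R : ℝ, ∀ s, ‖φ s‖ ≤ R) → (∀ y, J (A y) =ᵐ[μ] fun s => φ s * J y s) →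
    Measurable g → (∀ s, ‖g s‖ ≤ M) → (∀ y, ∫ s, g s * J y s ∂μ = 0) →
    (∃ y, ∫ s, g s * J y s * conj (φ s) ∂μ ≠ 0) → Mul1 μ v B →
    Sqf μ (fun j => (J (u j) : S → ℂ)) Y →
    (∀ y, HasSum (fun j => (∫ s, v j s * J y s ∂μ) • u j) (K y)) → P E (A + K)

/-- the conclusion -/
def Con (E : Type) [NormedAddCommGroup E] [NormedSpace ℂ E] (T : E →L[ℂ] E) : Prop :=
  NIB T ∧ ∀ y, Cyc T y → volume {a : ℂ | Bpe T y a} ≠ 0

theorem tSCH2 (E : Type) [NormedAddCommGroup E]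
    [NormedSpace ℂ E] (T : E →L[ℂ] E) (c : ℕ → E → ℂ → ℂ) (x : ℕ → E) (C₀ : ℝ)
    (hCS : CS T c x C₀) (y₁ : E) (hy₁ : Cyc T y₁) :
    ∀ᵐ a : ℂ, c 0 (x 0) a ≠ 0 → Bpe T y₁ a :=
  sch2 rL2B (FRE.fre rL2B (Pool.Agent.Q135.TR.frd rL2B)) Pool.Agent.H84.LP.low
    Pool.Agent.H84.LP.evp (Pool.Agent.H22.LP.wgx rL2B) Pool.Agent.H41.LP.hvx
    Pool.Agent.H82.LP.mny (Pool.Agent.H50.SM.LNK2.lnk2 Pool.Agent.Q130.TC.wML2
      Pool.Agent.Q88.TC.ply) E T c x C₀ hCS y₁ hy₁

theorem fin2 : FinP Con := by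
  intro S _ μ _ φ E _ _ _ A K J g v u B M Y hφ hφb hJA hg hgM hann hne hv hu hK
  refine ⟨main S μ φ E A K J g v u B M Y hφ hφb hJA hg hgM hann hne hv hu hK, ?_⟩
  intro y₁ hy₁ hvol
  obtain ⟨y, hy⟩ := hne
  have hdat : Dat μ φ A K J (cs g v) (cs y u) (|M| + B) (fun s => ‖J y s‖ + Y s) :=
    { mφ := hφ
      bφ := hφb
      JA := hJA
      mw := Pool.Agent.H99.LP.mul1_cs hg hgM hv
      sf := Pool.Agent.H99.LP.sqf_cs J y hu
      ann := hann
      rep := hK }
  obtain ⟨C₀, hCS⟩ := tINS S μ φ E A K J (cs g v) (cs y u) (|M| + B) _ hdat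
  have h0 : ∀ᵐ z : ℂ, cau μ φ (fun s => g s * J y s) z = 0 := by
    have h1 := tSCH2 E (A + K) _ (cs y u) C₀ hCS y₁ hy₁
    have h2 : ∀ᵐ a : ℂ, ¬ Bpe (A + K) y₁ a := by
      rw [ae_iff]
      simpa using hvol
    filter_upwards [h1, h2] with a h1 h2
    by_contra h3
    exact h2 (h1 h3)
  have hint : Integrable (fun s => g s * J y s) μ := by
    refine Integrable.mono' ((L1.integrable_coeFn (J y)).norm.const_mul |M|)
      (hg.mul (Lp.stronglyMeasurable (J y)).measurable).aestronglyMeasurable ?_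
    refine Eventually.of_forall fun s => ?_
    rw [norm_mul]
    exact mul_le_mul_of_nonneg_right ((hgM s).trans (le_abs_self M)) (norm_nonneg _)
  exact hy (Pool.Agent.H22.LP.caz S μ φ (fun s => g s * J y s) hφ hφb
    (hg.mul (Lp.stronglyMeasurable (J y)).measurable) hint h0)

/-- Banach spaces with a bounded map to `L^p(μ)` -/
theorem lpc2 (P : ∀ (E : Type) [NormedAddCommGroup E] [NormedSpace ℂ E], (E →L[ℂ] E) → Prop)
    (hFIN : FinP P) (S : Type) [MeasurableSpace S] (μ : Measure S) [SigmaFinite μ]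
    (p q : ℝ≥0∞) [Fact (1 ≤ p)] [ENNReal.HolderConjugate p q] (φ : S → ℂ)
    (E : Type) [NormedAddCommGroup E] [NormedSpace ℂ E] [CompleteSpace E]
    (J₀ : E →L[ℂ] Lp ℂ p μ) (A K : E →L[ℂ] E) (g : S → ℂ)
    (v : ℕ → S → ℂ) (u : ℕ → E) (V Y : S → ℝ) (hφ : Measurable φ)
    (hφb : ∃ R : ℝ, ∀ s, ‖φ s‖ ≤ R)
    (hA : ∀ y : E, (J₀ (A y) : S → ℂ) =ᵐ[μ] fun s => φ s * J₀ y s)
    (hg : MemLp g q μ) (hg0 : ∀ y : E, ∫ s, g s * J₀ y s ∂μ = 0)
    (hg1 : ∃ y : E, ∫ s, g s * J₀ y s * conj (φ s) ∂μ ≠ 0)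
    (hv : ∀ j, AEStronglyMeasurable (v j) μ) (hV : MemLp V q μ)
    (hvV : ∀ᵐ s ∂μ, ∀ m : ℕ, ∑ j ∈ Finset.range m, ‖v j s‖ ^ 2 ≤ V s ^ 2) (hY : MemLp Y p μ)
    (huY : ∀ᵐ s ∂μ, ∀ m : ℕ, ∑ j ∈ Finset.range m, ‖J₀ (u j) s‖ ^ 2 ≤ Y s ^ 2)
    (hK : ∀ y : E, HasSum (fun j => (∫ s, v j s * J₀ y s ∂μ) • u j) (K y)) :
    P E (A + K) := by
  have hqp : ENNReal.HolderConjugate q p := ENNReal.HolderConjugate.symm
  have hq1 : Fact (1 ≤ q) := ⟨ENNReal.HolderConjugate.one_le q p⟩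
  -- measurable representatives
  obtain ⟨g', hg'm, hgg'⟩ := hg.1
  obtain ⟨V', hV'm, hVV'⟩ := hV.1
  obtain ⟨Y', hY'm, hYY'⟩ := hY.1
  have hg' : MemLp g' q μ := (memLp_congr_ae hgg').1 hg
  have hV' : MemLp V' q μ := (memLp_congr_ae hVV').1 hV
  have hY' : MemLp Y' p μ := (memLp_congr_ae hYY').1 hY
  choose v' hv'm hvv' using hv
  obtain ⟨D, hD⟩ : ∃ D : S → ℝ, ∀ s, D s = ‖g' s‖ + |V' s| := ⟨_, fun _ => rfl⟩
  have hDm : Measurable D := by
    have : D = fun s => ‖g' s‖ + |V' s| := funext hD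
    rw [this]
    exact hg'm.measurable.norm.add (hV'm.measurable.norm)
  have hD0 : ∀ s, 0 ≤ D s := fun s => by
    rw [hD]
    positivity
  have hDq : MemLp D q μ := by
    have : D = fun s => ‖g' s‖ + |V' s| := funext hD
    rw [this]
    exact hg'.norm.add hV'.norm
  have hDc : MemLp (fun s => (D s : ℂ)) q μ := hDq.ofReal
  -- the map
  obtain ⟨J, hJ⟩ : ∃ J : E →L[ℂ] Lp ℂ 1 μ, ∀ y : E,
      J y =ᵐ[μ] fun s => (D s : ℂ) * J₀ y s := by
    refine ⟨((ContinuousLinearMap.mul ℂ ℂ).holderL μ q p 1 hDc.toLp) ∘L J₀, fun y => ?_⟩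
    have h1 : ((((ContinuousLinearMap.mul ℂ ℂ).holderL μ q p 1 hDc.toLp) ∘L J₀) y) =
        (ContinuousLinearMap.mul ℂ ℂ).holder 1 hDc.toLp (J₀ y) := rfl
    rw [h1]
    filter_upwards [(ContinuousLinearMap.mul ℂ ℂ).coeFn_holder (r := 1) hDc.toLp (J₀ y),
      hDc.coeFn_toLp] with s h2 h3
    rw [h2, h3]
    rfl
  -- the multipliers
  have e1 : ∀ y : E, (fun s => g' s / D s * J y s) =ᵐ[μ] fun s => g s * J₀ y s := by
    intro y
    filter_upwards [hJ y, hgg'] with s h1 h2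
    rw [h1, h2]
    by_cases h3 : D s = 0
    · have h4 : g' s = 0 := by
        have h5 := hD s
        rw [h3] at h5
        have h6 := norm_nonneg (g' s)
        have h7 := abs_nonneg (V' s)
        exact norm_eq_zero.1 (by linarith)
      rw [h4]
      simp
    · have h4 : (D s : ℂ) ≠ 0 := by exact_mod_cast h3
      field_simp
  have e2 : ∀ (j : ℕ) (y : E), (fun s => v' j s / D s * J y s) =ᵐ[μ]
      fun s => v j s * J₀ y s := by
    intro j y
    filter_upwards [hJ y, hvv' j, hvV, hVV'] with s h1 h2 h3 h4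
    rw [h1, h2]
    by_cases h5 : D s = 0
    · have h6 : V' s = 0 := by
        have h5' := hD s
        rw [h5] at h5'
        have h6 := norm_nonneg (g' s)
        have h7 := abs_nonneg (V' s)
        exact abs_eq_zero.1 (by linarith)
      have h7 : ‖v j s‖ ^ 2 ≤ 0 := by
        have h8 := h3 (j + 1)
        rw [h4, h6] at h8
        refine (Finset.single_le_sum (f := fun j => ‖v j s‖ ^ 2) (fun _ _ => by positivity)
          (Finset.mem_range.2 (Nat.lt_succ_self j))).trans (h8.trans (by norm_num))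
      have h8 : v' j s = 0 := by
        rw [← h2]
        have h9 : ‖v j s‖ ^ 2 = 0 := le_antisymm h7 (by positivity)
        exact norm_eq_zero.1 (pow_eq_zero_iff (two_ne_zero) |>.1 h9)
      rw [h8]
      simp
    · have h6 : (D s : ℂ) ≠ 0 := by exact_mod_cast h5
      field_simp
  refine hFIN S μ φ E A K J (fun s => g' s / D s) (fun j s => v' j s / D s) u 1 1
    (fun s => D s * |Y' s|) hφ hφb ?_ ?_ ?_ ?_ ?_ ?_ ?_ ?_
  · intro y
    filter_upwards [hJ y, hJ (A y), hA y] with s h1 h2 h3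
    rw [h2, h1, h3]
    ring
  · exact hg'm.measurable.div (Complex.measurable_ofReal.comp hDm)
  · intro s
    rw [norm_div, Complex.norm_real, Real.norm_of_nonneg (hD0 s)]
    refine div_le_one_of_le₀ ?_ (hD0 s)
    rw [hD]
    linarith [abs_nonneg (V' s)]
  · intro y
    rw [integral_congr_ae (e1 y)]
    exact hg0 y
  · obtain ⟨y, hy⟩ := hg1
    refine ⟨y, ?_⟩
    rw [integral_congr_ae (g := fun s => g s * J₀ y s * conj (φ s))]
    · exact hy
    · filter_upwards [e1 y] with s h1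
      rw [h1]
  · refine ⟨fun j => (hv'm j).measurable.div (Complex.measurable_ofReal.comp hDm), zero_le_one, ?_⟩
    have h1 : ∀ᵐ s ∂μ, ∀ j, v j s = v' j s := by
      rw [ae_all_iff]
      exact hvv'
    filter_upwards [h1, hvV, hVV'] with s h1 h2 h3 m
    have h4 : ∑ i ∈ Finset.range m, ‖v' i s / (D s : ℂ)‖ ^ 2 =
        (∑ i ∈ Finset.range m, ‖v i s‖ ^ 2) / D s ^ 2 := by
      rw [Finset.sum_div]
      refine Finset.sum_congr rfl fun i _ => ?_
      rw [h1, norm_div, Complex.norm_real, Real.norm_of_nonneg (hD0 s), div_pow]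
    rw [h4, one_pow]
    refine div_le_one_of_le₀ ((h2 m).trans ?_) (by positivity)
    rw [h3, hD, ← sq_abs]
    have := norm_nonneg (g' s)
    exact pow_le_pow_left₀ (abs_nonneg _) (by linarith) 2
  · refine ⟨fun j => (Lp.stronglyMeasurable (J (u j))).measurable,
      hDm.mul hY'm.measurable.norm, fun s => mul_nonneg (hD0 s) (abs_nonneg _), ?_, ?_⟩
    · have h1 : MemLp (fun s => D s * |Y' s|) 1 μ := hY'.norm.mul' hDq
      exact memLp_one_iff_integrable.1 h1
    · have h1 : ∀ᵐ s ∂μ, ∀ j, J (u j) s = (D s : ℂ) * J₀ (u j) s := by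
        rw [ae_all_iff]
        exact fun j => hJ (u j)
      filter_upwards [h1, huY, hYY'] with s h1 h2 h3 m
      have h4 : ∑ j ∈ Finset.range m, ‖J (u j) s‖ ^ 2 =
          D s ^ 2 * ∑ j ∈ Finset.range m, ‖J₀ (u j) s‖ ^ 2 := by
        rw [Finset.mul_sum]
        refine Finset.sum_congr rfl fun i _ => ?_
        rw [h1, norm_mul, Complex.norm_real, Real.norm_of_nonneg (hD0 s), mul_pow]
      rw [h4, mul_pow, sq_abs, ← h3]
      exact mul_le_mul_of_nonneg_left (h2 m) (by positivity)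
  · intro y
    have h1 : ∀ j, ∫ s, v' j s / D s * J y s ∂μ = ∫ s, v j s * J₀ y s ∂μ := fun j =>
      integral_congr_ae (e2 j y)
    simp only [h1]
    exact hK y

end Pool.Agent.H26.LP.CYC
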