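import Mathlib

/-!
# Project LP, module NUC: nuclear operators of order `r`, `1 / r = 1 / 2 + max (1 / p) (1 / q)`
-/

set_option autoImplicit false

namespace Pool.Agent.H26.LP.NUC

open MeasureTheory Set Metric Filter Topology
open scoped ENNReal NNReal

variable {S : Type} [MeasurableSpace S] {μ : Measure S}

lemma nuc1 {q : ℝ≥0∞} [Fact (1 ≤ q)] (c : ℕ → ℝ) (hc : ∀ j, 0 ≤ c j) (hs : Summable c)
    (f : ℕ → S → ℝ) (hf : ∀ j, MemLp (f j) q μ) (hf0 : ∀ j s, 0 ≤ f j s)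
    (hf1 : ∀ j, eLpNorm (f j) q μ ≤ 1) :
    ∃ V : S → ℝ, MemLp V q μ ∧ ∀ᵐ s ∂μ, ∀ m : ℕ, ∑ j ∈ Finset.range m, c j * f j s ≤ V s := by
  obtain ⟨F, hF⟩ : ∃ F : ℕ → Lp ℝ q μ, ∀ j, F j = c j • (hf j).toLp := ⟨_, fun _ => rfl⟩
  have hFn : ∀ j, ‖F j‖ ≤ c j := by
    intro j
    rw [hF, norm_smul, Real.norm_of_nonneg (hc j), Lp.norm_toLp]
    have h1 : (eLpNorm (f j) q μ).toReal ≤ 1 := by
      have := ENNReal.toReal_mono ENNReal.one_ne_top (hf1 j)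
      simpa using this
    exact mul_le_of_le_one_right (hc j) h1
  have hFs : Summable F := Summable.of_norm_bounded hs hFn
  have hFc : ∀ j, F j =ᵐ[μ] fun s => c j * f j s := by
    intro j
    rw [hF]
    filter_upwards [Lp.coeFn_smul (c j) (hf j).toLp, (hf j).coeFn_toLp] with s h1 h2
    rw [h1, Pi.smul_apply, h2, smul_eq_mul]
  have hF0 : ∀ j, 0 ≤ F j := by
    intro j
    rw [← Lp.coeFn_le]
    filter_upwards [hFc j, Lp.coeFn_zero ℝ q μ] with s h1 h2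
    rw [h1, h2]
    exact mul_nonneg (hc j) (hf0 j s)
  refine ⟨⇑(∑' j, F j), Lp.memLp _, ?_⟩
  rw [ae_all_iff]
  intro m
  have h1 : ∑ j ∈ Finset.range m, F j ≤ ∑' j, F j :=
    hFs.sum_le_tsum _ fun j _ => hF0 j
  have h2 : ∀ m : ℕ, (⇑(∑ j ∈ Finset.range m, F j) : S → ℝ) =ᵐ[μ]
      fun s => ∑ j ∈ Finset.range m, c j * f j s := by
    intro m
    induction m with
    | zero =>
      simp only [Finset.range_zero, Finset.sum_empty]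
      filter_upwards [Lp.coeFn_zero ℝ q μ] with s h
      rw [h]
      rfl
    | succ m ih =>
      rw [Finset.sum_range_succ]
      filter_upwards [Lp.coeFn_add (∑ j ∈ Finset.range m, F j) (F m), ih, hFc m] with s h3 h4 h5
      rw [h3, Pi.add_apply, h4, h5, Finset.sum_range_succ]
  filter_upwards [(Lp.coeFn_le _ _).2 h1, h2 m] with s h3 h4
  rw [← h4]
  exact h3

lemma nuc2 {p : ℝ≥0∞} (hp : 2 ≤ p) (c : ℕ → ℝ) (hc : ∀ j, 0 ≤ c j) (hs : Summable c)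
    (f : ℕ → S → ℂ) (hf : ∀ j, MemLp (f j) p μ) (hf1 : ∀ j, eLpNorm (f j) p μ ≤ 1) :
    ∃ Y : S → ℝ, MemLp Y p μ ∧
      ∀ᵐ s ∂μ, ∀ m : ℕ, ∑ j ∈ Finset.range m, c j * ‖f j s‖ ^ 2 ≤ Y s ^ 2 := by
  have hp2 : Fact (1 ≤ p / 2) := ⟨by
    rw [ENNReal.le_div_iff_mul_le (Or.inl two_ne_zero) (Or.inl (by norm_num)), one_mul]
    exact hp⟩
  have hpp : p / 2 * ENNReal.ofReal 2 = p := by
    rw [ENNReal.ofReal_ofNat]
    exact ENNReal.div_mul_cancel two_ne_zero (by norm_num)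
  have hn : ∀ j, eLpNorm (fun s => ‖f j s‖ ^ 2) (p / 2) μ = eLpNorm (f j) p μ ^ (2:ℝ) := by
    intro j
    have h := eLpNorm_norm_rpow (μ := μ) (p := p / 2) (f j) (q := 2) two_pos
    rw [hpp] at h
    rw [← h]
    congr 1
    funext s
    exact (Real.rpow_two _).symm
  obtain ⟨V, hV, hVle⟩ := nuc1 (μ := μ) (q := p / 2) c hc hs (fun j s => ‖f j s‖ ^ 2)
    (fun j => ⟨((hf j).1.norm.pow 2), by
      rw [hn]
      exact ENNReal.rpow_lt_top_of_nonneg (by norm_num) (hf j).2.ne⟩)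
    (fun j s => by positivity) (fun j => by
      rw [hn]
      exact ENNReal.rpow_le_one (hf1 j) (by norm_num))
  refine ⟨fun s => ‖V s‖ ^ (1 / 2 : ℝ), ⟨?_, ?_⟩, ?_⟩
  · exact (hV.1.norm.aemeasurable.pow_const _).aestronglyMeasurable
  · rw [eLpNorm_norm_rpow (μ := μ) (p := p) V (q := 1 / 2) (by norm_num)]
    have h1 : p * ENNReal.ofReal (1 / 2) = p / 2 := by
      rw [ENNReal.div_eq_inv_mul, mul_comm, one_div, ENNReal.ofReal_inv_of_pos two_pos,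
        ENNReal.ofReal_ofNat]
    rw [h1]
    exact ENNReal.rpow_lt_top_of_nonneg (by norm_num) hV.2.ne
  · filter_upwards [hVle] with s hs m
    refine (hs m).trans ?_
    rw [← Real.rpow_natCast, ← Real.rpow_mul (norm_nonneg _)]
    norm_num
    exact le_abs_self _


lemma sum_rpow_le (t : ℝ) (ht : 1 ≤ t) (g : ℕ → ℝ) (hg : ∀ j, 0 ≤ g j) (m : ℕ) :
    ∑ j ∈ Finset.range m, g j ^ t ≤ (∑ j ∈ Finset.range m, g j) ^ t := by
  induction m with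
  | zero => simp only [Finset.range_zero, Finset.sum_empty]; exact Real.rpow_nonneg le_rfl _
  | succ m ih =>
    rw [Finset.sum_range_succ, Finset.sum_range_succ]
    have h1 : 0 ≤ ∑ j ∈ Finset.range m, g j := Finset.sum_nonneg fun j _ => hg j
    refine (add_le_add_left ih _).trans ?_
    exact Real.add_rpow_le_rpow_add h1 (hg m) ht

/-- square functions, exponent at most two -/
lemma sqA {q : ℝ≥0∞} (hq1 : 1 ≤ q) (hq2 : q ≤ 2) (r : ℝ) (hr : 0 < r) (σ : ℕ → ℝ)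
    (h0 : ∀ j, 0 ≤ σ j) (hs : Summable fun j => σ j ^ r) (f : ℕ → S → ℂ)
    (hf : ∀ j, MemLp (f j) q μ) (hf1 : ∀ j, eLpNorm (f j) q μ ≤ 1) :
    ∃ V : S → ℝ, MemLp V q μ ∧ ∀ᵐ s ∂μ, ∀ m : ℕ,
      ∑ j ∈ Finset.range m, ‖((σ j ^ (r / q.toReal) : ℝ) : ℂ) * f j s‖ ^ 2 ≤ V s ^ 2 := by
  have hqt : q ≠ ∞ := (hq2.trans_lt (by norm_num)).ne
  obtain ⟨t, ht⟩ : ∃ t : ℝ, t = q.toReal := ⟨_, rfl⟩
  have hqt' : q = ENNReal.ofReal t := by rw [ht, ENNReal.ofReal_toReal hqt]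
  have ht1 : 1 ≤ t := by
    rw [ht, ← ENNReal.toReal_one]
    exact ENNReal.toReal_mono hqt hq1
  have ht2 : t ≤ 2 := by
    rw [ht]
    have := ENNReal.toReal_mono (by norm_num) hq2
    simpa using this
  have ht0 : 0 < t := by linarith
  rw [← ht]
  have hn : ∀ j, eLpNorm (fun s => ‖f j s‖ ^ t) 1 μ = eLpNorm (f j) q μ ^ t := by
    intro j
    have h := eLpNorm_norm_rpow (μ := μ) (p := 1) (f j) (q := t) ht0
    rw [one_mul, ← hqt'] at h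
    exact h
  have hone : Fact ((1 : ℝ≥0∞) ≤ 1) := ⟨le_rfl⟩
  obtain ⟨G, hG, hle⟩ := nuc1 (μ := μ) (q := 1) (fun j => σ j ^ r)
    (fun j => Real.rpow_nonneg (h0 j) _) hs (fun j s => ‖f j s‖ ^ t)
    (fun j => ⟨((hf j).1.norm.aemeasurable.pow_const t).aestronglyMeasurable, by
      rw [hn]
      exact ENNReal.rpow_lt_top_of_nonneg ht0.le (hf j).2.ne⟩)
    (fun j s => Real.rpow_nonneg (norm_nonneg _) _) (fun j => by
      rw [hn]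
      exact ENNReal.rpow_le_one (hf1 j) ht0.le)
  refine ⟨fun s => ‖G s‖ ^ (1 / t), ⟨?_, ?_⟩, ?_⟩
  · exact (hG.1.norm.aemeasurable.pow_const _).aestronglyMeasurable
  · rw [eLpNorm_norm_rpow (μ := μ) (p := q) G (q := 1 / t) (by positivity)]
    have h1 : q * ENNReal.ofReal (1 / t) = 1 := by
      rw [hqt', ← ENNReal.ofReal_mul ht0.le, mul_one_div_cancel ht0.ne', ENNReal.ofReal_one]
    rw [h1]
    exact ENNReal.rpow_lt_top_of_nonneg (by positivity) hG.2.ne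
  · filter_upwards [hle] with s hs' m
    have e : ∀ j, ‖((σ j ^ (r / t) : ℝ) : ℂ) * f j s‖ ^ 2 =
        (σ j ^ r * ‖f j s‖ ^ t) ^ (2 / t) := by
      intro j
      rw [norm_mul, Complex.norm_real, Real.norm_of_nonneg (Real.rpow_nonneg (h0 j) _), mul_pow,
        Real.mul_rpow (Real.rpow_nonneg (h0 j) _) (Real.rpow_nonneg (norm_nonneg _) _),
        ← Real.rpow_natCast (σ j ^ (r / t)), ← Real.rpow_mul (h0 j), ← Real.rpow_mul (h0 j),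
        ← Real.rpow_mul (norm_nonneg _), ← Real.rpow_natCast ‖f j s‖]
      congr 2
      · push_cast
        field_simp
      · push_cast
        field_simp
    simp only [e]
    have h1 : ∀ j, 0 ≤ σ j ^ r * ‖f j s‖ ^ t := fun j =>
      mul_nonneg (Real.rpow_nonneg (h0 j) _) (Real.rpow_nonneg (norm_nonneg _) _)
    have h2 : 1 ≤ 2 / t := by rw [le_div_iff₀ ht0]; linarith
    refine (sum_rpow_le (2 / t) h2 _ h1 m).trans ?_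
    have h3 : (∑ j ∈ Finset.range m, σ j ^ r * ‖f j s‖ ^ t) ^ (2 / t) ≤ ‖G s‖ ^ (2 / t) := by
      refine Real.rpow_le_rpow (Finset.sum_nonneg fun j _ => h1 j) ?_ (by positivity)
      exact (hs' m).trans (le_abs_self _)
    refine h3.trans (le_of_eq ?_)
    rw [← Real.rpow_natCast, ← Real.rpow_mul (norm_nonneg _)]
    congr 1
    push_cast
    field_simp

/-- square functions, exponent at least two -/
lemma sqB {p : ℝ≥0∞} (hp : 2 ≤ p) (r : ℝ) (_hr : 0 < r) (σ : ℕ → ℝ) (h0 : ∀ j, 0 ≤ σ j)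
    (hs : Summable fun j => σ j ^ r) (f : ℕ → S → ℂ) (hf : ∀ j, MemLp (f j) p μ)
    (hf1 : ∀ j, eLpNorm (f j) p μ ≤ 1) :
    ∃ V : S → ℝ, MemLp V p μ ∧ ∀ᵐ s ∂μ, ∀ m : ℕ,
      ∑ j ∈ Finset.range m, ‖((σ j ^ (r / 2) : ℝ) : ℂ) * f j s‖ ^ 2 ≤ V s ^ 2 := by
  obtain ⟨V, hV, hle⟩ := nuc2 (μ := μ) hp (fun j => σ j ^ r)
    (fun j => Real.rpow_nonneg (h0 j) _) hs f hf hf1
  refine ⟨V, hV, ?_⟩
  filter_upwards [hle] with s hs' m
  have e : ∀ j, ‖((σ j ^ (r / 2) : ℝ) : ℂ) * f j s‖ ^ 2 = σ j ^ r * ‖f j s‖ ^ 2 := by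
    intro j
    rw [norm_mul, Complex.norm_real, Real.norm_of_nonneg (Real.rpow_nonneg (h0 j) _), mul_pow,
      ← Real.rpow_natCast (σ j ^ (r / 2)), ← Real.rpow_mul (h0 j)]
    congr 2
    push_cast
    ring
  simp only [e]
  exact hs' m

lemma rp (σ : ℝ) (h : 0 ≤ σ) (a b : ℝ) (ha : 0 < a) (hb : 0 < b) (hab : a + b = 1) :
    ((σ ^ a : ℝ) : ℂ) * ((σ ^ b : ℝ) : ℂ) = (σ : ℂ) := by
  rw [← Complex.ofReal_mul, ← Real.rpow_add_of_nonneg h ha.le hb.le, hab, Real.rpow_one]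

/-- the order `r`, `1 / r = 1 / 2 + 1 / q`, for `q ≤ 2 ≤ p` -/
lemma ord {p q : ℝ≥0∞} (hp : 2 ≤ p) (hq1 : 1 ≤ q) (hq2 : q ≤ 2) :
    0 < ((2⁻¹ + max p⁻¹ q⁻¹)⁻¹ : ℝ≥0∞).toReal ∧
    ((2⁻¹ + max p⁻¹ q⁻¹)⁻¹ : ℝ≥0∞).toReal / q.toReal +
      ((2⁻¹ + max p⁻¹ q⁻¹)⁻¹ : ℝ≥0∞).toReal / 2 = 1 := by
  have hqt : q ≠ ∞ := (hq2.trans_lt (by norm_num)).ne
  have hq0 : q ≠ 0 := (lt_of_lt_of_le one_pos hq1).ne'
  have hm : max p⁻¹ q⁻¹ = q⁻¹ := max_eq_right (ENNReal.inv_le_inv.2 (hq2.trans hp))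
  have ht0 : 0 < q.toReal := ENNReal.toReal_pos hq0 hqt
  have e : ((2⁻¹ + max p⁻¹ q⁻¹)⁻¹ : ℝ≥0∞).toReal = (2⁻¹ + q.toReal⁻¹)⁻¹ := by
    rw [hm, ENNReal.toReal_inv, ENNReal.toReal_add (by norm_num) (ENNReal.inv_ne_top.2 hq0),
      ENNReal.toReal_inv, ENNReal.toReal_inv, ENNReal.toReal_ofNat]
  rw [e]
  refine ⟨by positivity, ?_⟩
  field_simp
  ring

/-- nuclear operators of order `r` on subspaces of `L^p`, `1 / r = 1 / 2 + max (1 / p) (1 / q)` -/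
theorem nuc3 {p q : ℝ≥0∞} [Fact (1 ≤ p)] [ENNReal.HolderConjugate p q]
    {E : Type} [NormedAddCommGroup E] [NormedSpace ℂ E] (f : E → S → ℂ)
    (hm : ∀ y, MemLp (f y) p μ) (hsm : ∀ (c : ℂ) (y : E), f (c • y) =ᵐ[μ] fun s => c * f y s)
    (hn : ∀ y, eLpNorm (f y) p μ = ENNReal.ofReal ‖y‖) (K : E →L[ℂ] E) (σ : ℕ → ℝ)
    (v : ℕ → S → ℂ) (u : ℕ → E)
    (h0 : ∀ j, 0 ≤ σ j)
    (hs : Summable fun j => σ j ^ ((2⁻¹ + max p⁻¹ q⁻¹)⁻¹ : ℝ≥0∞).toReal)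
    (hv : ∀ j, MemLp (v j) q μ) (hv1 : ∀ j, eLpNorm (v j) q μ ≤ 1) (hu : ∀ j, ‖u j‖ ≤ 1)
    (hK : ∀ y : E, HasSum (fun j => ((σ j : ℂ) * ∫ s, v j s * f y s ∂μ) • u j) (K y)) :
    ∃ (v' : ℕ → S → ℂ) (u' : ℕ → E) (V Y : S → ℝ), (∀ j, AEStronglyMeasurable (v' j) μ) ∧
      MemLp V q μ ∧ (∀ᵐ s ∂μ, ∀ m : ℕ, ∑ j ∈ Finset.range m, ‖v' j s‖ ^ 2 ≤ V s ^ 2) ∧
      MemLp Y p μ ∧ (∀ᵐ s ∂μ, ∀ m : ℕ, ∑ j ∈ Finset.range m, ‖f (u' j) s‖ ^ 2 ≤ Y s ^ 2) ∧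
      ∀ y : E, HasSum (fun j => (∫ s, v' j s * f y s ∂μ) • u' j) (K y) := by
  have hqp : ENNReal.HolderConjugate q p := ENNReal.HolderConjugate.symm
  have hq1 : Fact (1 ≤ q) := ⟨ENNReal.HolderConjugate.one_le q p⟩
  have hu2 : ∀ j, MemLp (f (u j)) p μ := fun j => hm _
  have hu1 : ∀ j, eLpNorm (f (u j)) p μ ≤ 1 := by
    intro j
    rw [hn, ← ENNReal.ofReal_one]
    exact ENNReal.ofReal_le_ofReal (hu j)
  -- the general step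
  have key : ∀ a b : ℝ, 0 < a → 0 < b → a + b = 1 →
      (∃ V : S → ℝ, MemLp V q μ ∧ ∀ᵐ s ∂μ, ∀ m : ℕ,
        ∑ j ∈ Finset.range m, ‖((σ j ^ a : ℝ) : ℂ) * v j s‖ ^ 2 ≤ V s ^ 2) →
      (∃ V : S → ℝ, MemLp V p μ ∧ ∀ᵐ s ∂μ, ∀ m : ℕ,
        ∑ j ∈ Finset.range m, ‖((σ j ^ b : ℝ) : ℂ) * f (u j) s‖ ^ 2 ≤ V s ^ 2) →
      ∃ (v' : ℕ → S → ℂ) (u' : ℕ → E) (V Y : S → ℝ), (∀ j, AEStronglyMeasurable (v' j) μ) ∧
      MemLp V q μ ∧ (∀ᵐ s ∂μ, ∀ m : ℕ, ∑ j ∈ Finset.range m, ‖v' j s‖ ^ 2 ≤ V s ^ 2) ∧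
      MemLp Y p μ ∧ (∀ᵐ s ∂μ, ∀ m : ℕ, ∑ j ∈ Finset.range m, ‖f (u' j) s‖ ^ 2 ≤ Y s ^ 2) ∧
      ∀ y : E, HasSum (fun j => (∫ s, v' j s * f y s ∂μ) • u' j) (K y) := by
    rintro a b ha hb hab ⟨V, hV, hVle⟩ ⟨Y, hY, hYle⟩
    refine ⟨fun j s => ((σ j ^ a : ℝ) : ℂ) * v j s, fun j => ((σ j ^ b : ℝ) : ℂ) • u j, V, Y,
      fun j => (hv j).1.const_mul _, hV, hVle, hY, ?_, fun y => ?_⟩
    · have h1 : ∀ᵐ s ∂μ, ∀ j, f (((σ j ^ b : ℝ) : ℂ) • u j) s =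
          ((σ j ^ b : ℝ) : ℂ) * f (u j) s := by
        rw [ae_all_iff]
        intro j
        exact hsm _ _
      filter_upwards [h1, hYle] with s h1 h2 m
      simp only [h1]
      exact h2 m
    · have e : (fun j => (∫ s, ((σ j ^ a : ℝ) : ℂ) * v j s * f y s ∂μ) •
          (((σ j ^ b : ℝ) : ℂ) • u j)) =
          fun j => ((σ j : ℂ) * ∫ s, v j s * f y s ∂μ) • u j := by
        funext j
        have e1 : ∫ s, ((σ j ^ a : ℝ) : ℂ) * v j s * f y s ∂μ =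
            ((σ j ^ a : ℝ) : ℂ) * ∫ s, v j s * f y s ∂μ := by
          rw [← integral_const_mul]
          refine integral_congr_ae (Eventually.of_forall fun s => ?_)
          exact mul_assoc _ _ _
        rw [e1, smul_smul, ← rp (σ j) (h0 j) a b ha hb hab]
        congr 1
        ring
      rw [e]
      exact hK y
  have hpq : p⁻¹ + q⁻¹ = 1 := ENNReal.HolderConjugate.inv_add_inv_eq_one p q
  have two : ∀ p q : ℝ≥0∞, p⁻¹ + q⁻¹ = 1 → 2 ≤ p → q ≤ 2 := by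
    intro p q h1 hp
    have h2 : p⁻¹ ≤ (2:ℝ≥0∞)⁻¹ := ENNReal.inv_le_inv.2 hp
    have h3 : (2:ℝ≥0∞)⁻¹ ≤ q⁻¹ := by
      have h4 : (2:ℝ≥0∞)⁻¹ + (2:ℝ≥0∞)⁻¹ ≤ (2:ℝ≥0∞)⁻¹ + q⁻¹ := by
        rw [ENNReal.inv_two_add_inv_two, ← h1]
        gcongr
      exact (ENNReal.add_le_add_iff_left (by norm_num)).1 h4
    exact ENNReal.inv_le_inv.1 h3
  have hp1 : 1 ≤ p := ENNReal.HolderConjugate.one_le p q
  rcases le_total 2 p with hp | hp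
  · have hq2 : q ≤ 2 := two p q hpq hp
    obtain ⟨hr, hab⟩ := ord hp hq1.out hq2
    exact key _ _ (div_pos hr (ENNReal.toReal_pos (lt_of_lt_of_le one_pos hq1.out).ne'
      (hq2.trans_lt (by norm_num)).ne)) (div_pos hr two_pos) hab
      (sqA hq1.out hq2 _ hr σ h0 hs v hv hv1) (sqB hp _ hr σ h0 hs _ hu2 hu1)
  · have hq : 2 ≤ q := by
      have h1 : p⁻¹ + q⁻¹ = 1 := hpq
      have h2 : (2:ℝ≥0∞)⁻¹ ≤ p⁻¹ := ENNReal.inv_le_inv.2 hp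
      have h3 : q⁻¹ ≤ (2:ℝ≥0∞)⁻¹ := by
        have h4 : (2:ℝ≥0∞)⁻¹ + q⁻¹ ≤ (2:ℝ≥0∞)⁻¹ + (2:ℝ≥0∞)⁻¹ := by
          rw [ENNReal.inv_two_add_inv_two, ← h1]
          gcongr
        exact (ENNReal.add_le_add_iff_left (by norm_num)).1 h4
      exact ENNReal.inv_le_inv.1 h3
    obtain ⟨hr, hab⟩ := ord hq hp1 hp
    rw [max_comm] at hr hab
    have hab' := hab
    rw [add_comm] at hab'
    exact key _ _ (div_pos hr two_pos) (div_pos hr (ENNReal.toReal_pos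
      (lt_of_lt_of_le one_pos hp1).ne' (hp.trans_lt (by norm_num)).ne)) hab'
      (sqB hq _ hr σ h0 hs v hv hv1) (sqA hp1 hp _ hr σ h0 hs _ hu2 hu1)

end Pool.Agent.H26.LP.NUC
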